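import Pool.Agent.K9h49.EL.Main

/-! # Project EL: three forms of the lower bound -/

set_option autoImplicit false

namespace Pool.Agent.K9h49.EL

open Pool.Agent.Y924.EL Function

theorem code_inj : ∀ φ ψ : Fm, φ.code = ψ.code → φ = ψ := by
  intro φ
  induction φ with
  | eq i j =>
    intro ψ h
    cases ψ <;> simp_all [Fm.code, Nat.pair_eq_pair]
  | one i =>
    intro ψ h
    cases ψ <;> simp_all [Fm.code, Nat.pair_eq_pair]
  | add i j k =>
    intro ψ h
    cases ψ <;> simp_all [Fm.code, Nat.pair_eq_pair]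
  | mul i j k =>
    intro ψ h
    cases ψ <;> simp_all [Fm.code, Nat.pair_eq_pair]
  | val i =>
    intro ψ h
    cases ψ <;> simp_all [Fm.code, Nat.pair_eq_pair]
  | neg φ ih =>
    intro ψ h
    cases ψ with
    | neg ψ =>
      simp only [Fm.code, Nat.pair_eq_pair] at h
      rw [ih ψ h.2]
    | _ => simp_all [Fm.code, Nat.pair_eq_pair]
  | and φ1 φ2 ih1 ih2 =>
    intro ψ h
    cases ψ with
    | and ψ1 ψ2 =>
      simp only [Fm.code, Nat.pair_eq_pair] at h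
      rw [ih1 ψ1 h.2.1, ih2 ψ2 h.2.2]
    | _ => simp_all [Fm.code, Nat.pair_eq_pair]
  | ex i φ ih =>
    intro ψ h
    cases ψ with
    | ex j ψ =>
      simp only [Fm.code, Nat.pair_eq_pair] at h
      rw [ih ψ h.2.2, h.2.1]
    | _ => simp_all [Fm.code, Nat.pair_eq_pair]

/-- is there a `w < n` with `R (pair z w) = 0`? -/
def srch (R : ℕ → ℕ) : ℕ → ℕ :=
  recF (fun _ => 0) fun u => if u.unpair.2.unpair.2 = 0 then
    (if R (Nat.pair u.unpair.1 u.unpair.2.unpair.1) = 0 then 1 else 0) else 1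

theorem srch_zero (R : ℕ → ℕ) (z : ℕ) : srch R (Nat.pair z 0) = 0 :=
  Pool.Agent.Y154.EL.recF_zero _ _ _

theorem srch_succ (R : ℕ → ℕ) (z n : ℕ) : srch R (Nat.pair z (n + 1)) =
    if srch R (Nat.pair z n) = 0 then (if R (Nat.pair z n) = 0 then 1 else 0) else 1 := by
  unfold srch
  rw [Pool.Agent.Y154.EL.recF_succ]
  simp only [Nat.unpair_pair]

theorem srch_iff (R : ℕ → ℕ) (z n : ℕ) :
    srch R (Nat.pair z n) ≠ 0 ↔ ∃ w, w < n ∧ R (Nat.pair z w) = 0 := by
  induction n with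
  | zero =>
    rw [srch_zero]
    constructor
    · intro h; exact absurd rfl h
    · rintro ⟨w, hw, -⟩; exact absurd hw (Nat.not_lt_zero _)
  | succ n ih =>
    rw [srch_succ]
    by_cases h1 : srch R (Nat.pair z n) = 0
    · rw [if_pos h1]
      have h2 : ¬ ∃ w, w < n ∧ R (Nat.pair z w) = 0 := fun h => (ih.2 h) h1
      by_cases h3 : R (Nat.pair z n) = 0
      · rw [if_pos h3]
        exact ⟨fun _ => ⟨n, Nat.lt_succ_self n, h3⟩, fun _ => one_ne_zero⟩
      · rw [if_neg h3]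
        constructor
        · intro h; exact absurd rfl h
        · rintro ⟨w, hw, h4⟩
          rcases Nat.lt_succ_iff_lt_or_eq.1 hw with h5 | rfl
          · exact absurd ⟨w, h5, h4⟩ h2
          · exact absurd h4 h3
    · rw [if_neg h1]
      obtain ⟨w, hw, h2⟩ := ih.1 h1
      exact ⟨fun _ => ⟨w, Nat.lt_succ_of_lt hw, h2⟩, fun _ => one_ne_zero⟩

theorem srch_E3 {R : ℕ → ℕ} (hR : E3 R) : E3 (srch R) := by
  have h1 : E3 fun u => R (Nat.pair u.unpair.1 u.unpair.2.unpair.1) :=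
    E3.comp hR (E3.pair E3.left (Pool.Agent.Y154.EL.e_left E3.right))
  have h2 : E3 fun u => if u.unpair.2.unpair.2 = 0 then
      (if R (Nat.pair u.unpair.1 u.unpair.2.unpair.1) = 0 then 1 else 0) else 1 :=
    Pool.Agent.Y154.EL.e_ite (Pool.Agent.Y154.EL.e_right E3.right)
      (Pool.Agent.Y154.EL.e_ite h1 (Pool.Agent.Y154.EL.e_const 1) E3.zero)
      (Pool.Agent.Y154.EL.e_const 1)
  refine Pool.Agent.Y154.EL.e_rec E3.zero h2 (Pool.Agent.Y154.EL.e_const 1) fun z n => ?_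
  cases n with
  | zero => rw [Pool.Agent.Y154.EL.recF_zero]; exact Nat.zero_le _
  | succ n =>
    rw [Pool.Agent.Y154.EL.recF_succ]
    simp only [Nat.unpair_pair]
    split_ifs <;> omega

theorem tower_E3 (k : ℕ) : E3 fun n => tower k n := by
  induction k with
  | zero => exact e3_id
  | succ k ih => exact E3.comp (f := fun n => 2 ^ n) E3.pow ih

/-- lower bound for the codes of proofs -/
theorem proof_bound (K : Type) [Field K] (p : ℕ) [Fact p.Prime] [CharP K p]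
    (hK : ∃ t : K, ∀ u : K, u ^ p ≠ t) (O : Set K) (R : ℕ → ℕ) (hR : E3 R)
    (hs : ∀ ψ : Fm, ψ.fv = ∅ → ((∀ v : ℕ → K, Sat O ψ v) ↔ ∃ w, R (Nat.pair ψ.code w) = 0))
    (k n0 : ℕ) : ∃ ψ : Fm, ψ.fv = ∅ ∧ ψ.InRing 64 ∧ n0 ≤ ψ.code ∧ (∀ v : ℕ → K, Sat O ψ v) ∧
      ∀ w, R (Nat.pair ψ.code w) = 0 → tower k ψ.code < w := by
  by_contra hcon
  push Not at hcon
  have h1 : E3 fun m => if srch R (Nat.pair m (tower k m + 1)) = 0 then 1 else 0 :=
    t_SG _ (E3.comp (srch_E3 hR) (E3.pair e3_id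
      (Pool.Agent.Y154.EL.e_succ (tower_E3 k))))
  obtain ⟨ψ, h2, h3, h4, h5⟩ := not_elementary K p hK O _ h1 n0
  apply h5
  have h6 : ((if srch R (Nat.pair ψ.code (tower k ψ.code + 1)) = 0 then 1 else 0) = 0) ↔
      ∃ w, w < tower k ψ.code + 1 ∧ R (Nat.pair ψ.code w) = 0 := by
    rw [← srch_iff]
    split_ifs with h
    · simp [h]
    · simp [h]
  rw [h6]
  constructor
  · intro h7
    obtain ⟨w, h8, h9⟩ := hcon ψ h2 h3 h4 h7
    exact ⟨w, Nat.lt_succ_of_le h9, h8⟩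
  · rintro ⟨w, -, h8⟩
    exact (hs ψ h2).2 ⟨w, h8⟩

end Pool.Agent.K9h49.EL
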