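import Pool.Agent.Y972.EL.PAIR

/-! # Project EL: the levels are good -/

set_option autoImplicit false

namespace Pool.Agent.K9h49.EL

open Pool.Agent.Y924.EL Pool.Agent.Y972.EL

/-! ## The first level -/

theorem good_lev0 {K : Type} (J : K → K → K) (z0 z1 : K) (hJ : Inj2 J) (hz : z0 ≠ z1) :
    Good (lev0 J z0 z1) 2 where
  enum := by
    refine ⟨fun k => if k = 0 then z0 else z1, ?_, ?_⟩
    · intro x
      constructor
      · rintro (rfl | rfl)
        · exact ⟨0, by norm_num, by simp⟩
        · exact ⟨1, by norm_num, by simp⟩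
      · rintro ⟨k, hk, rfl⟩
        rcases Nat.eq_zero_or_pos k with rfl | hk0
        · left; simp
        · right; simp [hk0.ne']
    · intro j k hj hk
      show ((if j = 0 then z0 else z1) = z0 ∧ (if k = 0 then z0 else z1) = z1) ↔ j < k
      constructor
      · rintro ⟨h1, h2⟩
        have hj0 : j = 0 := by
          by_contra hne
          rw [if_neg hne] at h1
          exact hz h1.symm
        have hk0 : k ≠ 0 := by
          rintro rfl
          rw [if_pos rfl] at h2
          exact hz h2
        omega
      · intro hjk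
        have hj0 : j = 0 := by omega
        have hk0 : k ≠ 0 := by omega
        exact ⟨if_pos hj0, if_neg hk0⟩
  func := by
    rintro s i v v' - (⟨h1, u, hu⟩ | ⟨h1, u, hu⟩) (⟨h2, u', hu'⟩ | ⟨h2, u', hu'⟩)
    · exact (hJ _ _ _ _ (hu.trans hu'.symm)).1
    · exact absurd (h1.symm.trans h2) hz
    · exact absurd (h2.symm.trans h1) hz
    · exact (hJ _ _ _ _ (hu.trans hu'.symm)).2
  comp := by
    intro φ
    refine ⟨J (φ z0) (φ z1), ?_⟩
    rintro i (rfl | rfl)
    · exact Or.inl ⟨rfl, _, rfl⟩
    · exact Or.inr ⟨rfl, _, rfl⟩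
  ext := by
    intro s s' h
    obtain ⟨v, (⟨-, u, hu⟩ | ⟨hh, -⟩), (⟨-, u', hu'⟩ | ⟨hh', -⟩)⟩ := h z0 (Or.inl rfl)
    rotate_left
    · exact absurd hh' hz
    · exact absurd hh hz
    · exact absurd hh hz
    obtain ⟨w, (⟨hh, -⟩ | ⟨-, x, hx⟩), (⟨hh', -⟩ | ⟨-, x', hx'⟩)⟩ := h z1 (Or.inr rfl)
    · exact absurd hh.symm hz
    · exact absurd hh.symm hz
    · exact absurd hh'.symm hz
    have h1 := hJ _ _ _ _ (hu.trans hx.symm)
    have h2 := hJ _ _ _ _ (hu'.trans hx'.symm)
    rw [← hu, ← hu', h1.2, h2.2]

/-! ## The domain of the next level -/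

section

variable {K : Type} {M : Lev K} {N : ℕ} {e : ℕ → K} {J : K → K → K} {z0 z1 : K}

/-- the element with the given bits -/
theorem exists_bits (hG : Good M N) (he : Enum M N e) (f : Fin N → Bool) :
    ∃ s, ∀ i : Fin N, M.E s (e i) (if f i then z1 else z0) := by
  obtain ⟨s, hs⟩ := exists_code hG he
    (fun k => if h : k < N then (if f ⟨k, h⟩ then z1 else z0) else z0)
  refine ⟨s, fun i => ?_⟩
  have h := hs i i.2
  simpa using h

theorem lst_e (he : Enum M N e) {i : ℕ} (hi : i < N) : Lst M (e i) ↔ i + 1 = N := by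
  constructor
  · rintro ⟨h1, h2⟩
    by_contra h3
    have h4 : i + 1 < N := by omega
    exact h2 ⟨e (i + 1), enum_D he h4, (he.2 _ _ hi h4).2 (Nat.lt_succ_self _)⟩
  · intro h
    refine ⟨enum_D he hi, ?_⟩
    rintro ⟨j, hj, hL⟩
    obtain ⟨k, hk, rfl⟩ := (he.1 _).1 hj
    have := (he.2 _ _ hi hk).1 hL
    omega

/-- equality of elements from the values -/
theorem ext_e (hG : Good M N) (he : Enum M N e) {s s' : K}
    (h : ∀ i, i < N → ∃ v, M.E s (e i) v ∧ M.E s' (e i) v) : s = s' := by
  refine hG.ext s s' fun i hi => ?_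
  obtain ⟨k, hk, rfl⟩ := (he.1 _).1 hi
  exact h k hk

theorem func_e (hG : Good M N) (he : Enum M N e) {s v v' : K} {i : ℕ} (hi : i < N)
    (h : M.E s (e i) v) (h' : M.E s (e i) v') : v = v' :=
  hG.func s (e i) v v' (enum_D he hi) h h'

open Classical in
theorem enum_next (hz : z0 ≠ z1) (hG : Good M N) :
    ∃ e' : ℕ → K, Enum (nextLev M J z0 z1) (2 ^ N) e' := by
  obtain ⟨e, he⟩ := hG.enum
  choose c hc using fun f : Lex (Fin N → Bool) =>
    exists_bits (z0 := z0) (z1 := z1) hG he (ofLex f)
  have hcard : Fintype.card (Lex (Fin N → Bool)) = 2 ^ N := by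
    rw [Fintype.card_lex]
    simp
  let ι := monoEquivOfFin (Lex (Fin N → Bool)) hcard
  refine ⟨fun k => if h : k < 2 ^ N then c (ι ⟨k, h⟩) else z0, ?_, ?_⟩
  · intro x
    constructor
    · intro hx
      let f : Fin N → Bool := fun i => decide (M.E x (e i) z1)
      have h1 : x = c (toLex f) := by
        refine ext_e hG he fun i hi => ?_
        have h2 := hc (toLex f) ⟨i, hi⟩
        by_cases h3 : M.E x (e i) z1
        · refine ⟨z1, h3, ?_⟩
          simpa [f, h3] using h2
        · refine ⟨z0, (hx (e i) (enum_D he hi)).resolve_right h3, ?_⟩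
          simpa [f, h3] using h2
      refine ⟨(ι.symm (toLex f)).1, (ι.symm (toLex f)).2, ?_⟩
      beta_reduce
      rw [dif_pos (ι.symm (toLex f)).2]
      simp only [Fin.eta, OrderIso.apply_symm_apply]
      exact h1
    · rintro ⟨k, hk, rfl⟩
      beta_reduce
      rw [dif_pos hk]
      intro i hi
      obtain ⟨j, hj, rfl⟩ := (he.1 _).1 hi
      have h2 := hc (ι ⟨k, hk⟩) ⟨j, hj⟩
      by_cases h3 : ofLex (ι ⟨k, hk⟩) ⟨j, hj⟩ = true
      · right
        rw [if_pos h3] at h2
        exact h2
      · left
        rw [if_neg h3] at h2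
        exact h2
  · intro j k hj hk
    simp only [dif_pos hj, dif_pos hk]
    have h0 : (j < k) ↔ ι ⟨j, hj⟩ < ι ⟨k, hk⟩ :=
      (OrderIso.lt_iff_lt ι (x := ⟨j, hj⟩) (y := ⟨k, hk⟩)).symm
    rw [h0]
    obtain ⟨f, hf⟩ : ∃ f, f = ι ⟨j, hj⟩ := ⟨_, rfl⟩
    obtain ⟨g, hg⟩ : ∃ g, g = ι ⟨k, hk⟩ := ⟨_, rfl⟩
    have hlex : f < g ↔ ∃ i, (∀ j < i, ofLex f j = ofLex g j) ∧ ofLex f i < ofLex g i :=
      Iff.rfl
    rw [← hf, ← hg, hlex]
    constructor
    · rintro ⟨i, hi, h1, h2, h3⟩
      obtain ⟨i, hi', rfl⟩ := (he.1 _).1 hi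
      refine ⟨⟨i, hi'⟩, ?_, ?_⟩
      · intro l hl
        have h4 := h3 (e l) (enum_D he l.2) ((he.2 _ _ l.2 hi').2 hl)
        have hfl := hc f l
        have hgl := hc g l
        rcases h4 with ⟨h5, h6⟩ | ⟨h5, h6⟩
        · have h7 := func_e hG he l.2 hfl h5
          have h8 := func_e hG he l.2 hgl h6
          have h9 : ofLex f l = false := by
            by_contra h
            rw [Bool.not_eq_false] at h
            rw [if_pos h] at h7
            exact hz h7.symm
          have h10 : ofLex g l = false := by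
            by_contra h
            rw [Bool.not_eq_false] at h
            rw [if_pos h] at h8
            exact hz h8.symm
          exact h9.trans h10.symm
        · have h7 := func_e hG he l.2 hfl h5
          have h8 := func_e hG he l.2 hgl h6
          have h9 : ofLex f l = true := by
            by_contra h
            rw [if_neg h] at h7
            exact hz h7
          have h10 : ofLex g l = true := by
            by_contra h
            rw [if_neg h] at h8
            exact hz h8
          exact h9.trans h10.symm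
      · have h7 := func_e hG he hi' (hc f ⟨i, hi'⟩) h1
        have h8 := func_e hG he hi' (hc g ⟨i, hi'⟩) h2
        have h9 : ofLex f ⟨i, hi'⟩ = false := by
          by_contra h
          rw [Bool.not_eq_false] at h
          rw [if_pos h] at h7
          exact hz h7.symm
        have h10 : ofLex g ⟨i, hi'⟩ = true := by
          by_contra h
          rw [if_neg h] at h8
          exact hz h8
        show ofLex f ⟨i, hi'⟩ < ofLex g ⟨i, hi'⟩
        rw [h9, h10]
        exact Bool.false_lt_true
    · rintro ⟨i, h1, h2⟩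
      have h9 : ofLex f i = false ∧ ofLex g i = true := by
        have h3 : ofLex f i < ofLex g i := h2
        revert h3
        generalize ofLex f i = a
        generalize ofLex g i = b
        revert a b
        decide
      refine ⟨e i, enum_D he i.2, ?_, ?_, ?_⟩
      · have h := hc f i
        rw [if_neg (by rw [h9.1]; exact Bool.false_ne_true)] at h
        exact h
      · have h := hc g i
        rw [if_pos h9.2] at h
        exact h
      · intro x hx hL
        obtain ⟨l, hl, rfl⟩ := (he.1 _).1 hx
        have hli : l < i := (he.2 _ _ hl i.2).1 hL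
        have h3 : ofLex f ⟨l, hl⟩ = ofLex g ⟨l, hl⟩ := h1 ⟨l, hl⟩ hli
        have hfl := hc f ⟨l, hl⟩
        have hgl := hc g ⟨l, hl⟩
        rw [← h3] at hgl
        by_cases h4 : ofLex f ⟨l, hl⟩ = true
        · right
          rw [if_pos h4] at hfl hgl
          exact ⟨hfl, hgl⟩
        · left
          rw [if_neg h4] at hfl hgl
          exact ⟨hfl, hgl⟩

/-! ## The evaluation relation of the next level -/

variable (J) in
/-- `x` is the node at depth `k` of the tree `s` in the direction of the bits `b` -/
def Node (s : K) (b : ℕ → Bool) : ℕ → K → Prop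
  | 0, x => x = s
  | k + 1, x => ∃ y, Node s b k y ∧ ∃ u, (b k = false ∧ J x u = y) ∨ (b k = true ∧ J u x = y)

theorem node_congr {s : K} {b b' : ℕ → Bool} {k : ℕ} (h : ∀ i, i < k → b i = b' i) (x : K) :
    Node J s b k x ↔ Node J s b' k x := by
  induction k generalizing x with
  | zero => exact Iff.rfl
  | succ k ih =>
    simp only [Node]
    have h1 := h k (Nat.lt_succ_self k)
    rw [h1]
    exact exists_congr fun y => and_congr_left fun _ =>
      ih (fun i hi => h i (Nat.lt_succ_of_lt hi)) y

theorem node_func (hJ : Inj2 J) {s : K} {b : ℕ → Bool} {k : ℕ} {x x' : K}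
    (h : Node J s b k x) (h' : Node J s b k x') : x = x' := by
  induction k generalizing x x' with
  | zero => exact h.trans h'.symm
  | succ k ih =>
    obtain ⟨y, hy, u, hu⟩ := h
    obtain ⟨y', hy', u', hu'⟩ := h'
    have h1 := ih hy hy'
    subst h1
    rcases hu with ⟨h1, h2⟩ | ⟨h1, h2⟩ <;> rcases hu' with ⟨h3, h4⟩ | ⟨h3, h4⟩
    · exact (hJ _ _ _ _ (h2.trans h4.symm)).1
    · rw [h1] at h3; exact absurd h3 Bool.false_ne_true
    · rw [h1] at h3; exact absurd h3.symm Bool.false_ne_true
    · exact (hJ _ _ _ _ (h2.trans h4.symm)).2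

/-- the bits of an element -/
def Bits (M : Lev K) (e : ℕ → K) (z0 z1 : K) (N : ℕ) (a : K) (b : ℕ → Bool) : Prop :=
  ∀ i, i < N → M.E a (e i) (if b i then z1 else z0)

theorem ch_iff (hz : z0 ≠ z1) (hG : Good M N) (he : Enum M N e) {a : K} {b : ℕ → Bool}
    (hb : Bits M e z0 z1 N a b) {i : ℕ} (hi : i < N) (x y : K) :
    Ch M J z0 z1 a (e i) x y ↔ ∃ u, (b i = false ∧ J y u = x) ∨ (b i = true ∧ J u y = x) := by
  have h0 : M.E a (e i) z0 ↔ b i = false := by
    constructor
    · intro h
      have h1 := func_e hG he hi (hb i hi) h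
      by_contra h2
      rw [Bool.not_eq_false] at h2
      rw [if_pos h2] at h1
      exact hz h1.symm
    · intro h
      have h1 := hb i hi
      rw [if_neg (by rw [h]; exact Bool.false_ne_true)] at h1
      exact h1
  have h1 : M.E a (e i) z1 ↔ b i = true := by
    constructor
    · intro h
      have h1 := func_e hG he hi (hb i hi) h
      by_contra h2
      rw [if_neg h2] at h1
      exact hz h1
    · intro h
      have h1 := hb i hi
      rw [if_pos h] at h1
      exact h1
  unfold Ch
  rw [h0, h1]

theorem eval_iff (hz : z0 ≠ z1) (hN : 1 ≤ N) (hG : Good M N) (he : Enum M N e)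
    {a : K} {b : ℕ → Bool} (hb : Bits M e z0 z1 N a b) (s v : K) :
    (nextLev M J z0 z1).E s a v ↔ Node J s b N v := by
  constructor
  · rintro ⟨w, h1, h2, h3⟩
    have h4 : ∀ i, i < N → ∀ x, M.E w (e i) x → Node J s b i x := by
      intro i
      induction i with
      | zero =>
        intro hi x hx
        exact func_e hG he hi hx (h1 _ ((fst_e he hi).2 rfl))
      | succ i ih =>
        intro hi x hx
        have hi' : i < N := by omega
        obtain ⟨x1, y1, h5, h6, h7⟩ := h2 _ _ ((suc_e he hi' hi).2 rfl)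
        rw [ch_iff hz hG he hb hi'] at h7
        have h8 := func_e hG he hi hx h6
        subst h8
        exact ⟨x1, ih hi' x1 h5, h7⟩
    obtain ⟨n, rfl⟩ : ∃ n, N = n + 1 := ⟨N - 1, by omega⟩
    obtain ⟨x, h5, h6⟩ := h3 (e n) ((lst_e he (Nat.lt_succ_self n)).2 rfl)
    rw [ch_iff hz hG he hb (Nat.lt_succ_self n)] at h6
    exact ⟨x, h4 n (Nat.lt_succ_self n) x h5, h6⟩
  · intro h
    -- a sequence of nodes
    have h1 : ∀ k, ∀ v, Node J s b k v → ∃ f : ℕ → K, f 0 = s ∧ f k = v ∧
        ∀ i, i < k → ∃ u, (b i = false ∧ J (f (i + 1)) u = f i) ∨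
          (b i = true ∧ J u (f (i + 1)) = f i) := by
      intro k
      induction k with
      | zero =>
        intro v hv
        exact ⟨fun _ => s, rfl, hv.symm, fun i hi => absurd hi (Nat.not_lt_zero _)⟩
      | succ k ih =>
        rintro v ⟨y, hy, u, hu⟩
        obtain ⟨f, h2, h3, h4⟩ := ih y hy
        refine ⟨fun i => if i = k + 1 then v else f i, ?_, ?_, ?_⟩
        · beta_reduce
          rw [if_neg (by omega)]
          exact h2
        · beta_reduce
          rw [if_pos rfl]
        · intro i hi
          rcases Nat.lt_succ_iff_lt_or_eq.1 hi with h5 | rfl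
          · have e1 : i + 1 ≠ k + 1 := by omega
            have e2 : i ≠ k + 1 := by omega
            simp only [if_neg e1, if_neg e2]
            exact h4 i h5
          · have e2 : i ≠ i + 1 := by omega
            simp only [if_true, if_neg e2]
            rw [h3]
            exact ⟨u, hu⟩
    obtain ⟨f, h2, h3, h4⟩ := h1 N v h
    obtain ⟨w, hw⟩ := exists_code hG he f
    refine ⟨w, ?_, ?_, ?_⟩
    · intro i hi
      obtain ⟨h0, rfl⟩ := (fst_iff he i).1 hi
      have h5 := hw 0 h0
      rwa [h2] at h5
    · intro i j hij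
      obtain ⟨k, hk, rfl, rfl⟩ := (suc_iff he i j).1 hij
      refine ⟨f k, f (k + 1), hw k (by omega), hw _ hk, ?_⟩
      rw [ch_iff hz hG he hb (by omega)]
      exact h4 k (by omega)
    · intro i hi
      obtain ⟨k, hk, rfl⟩ := (he.1 _).1 hi.1
      have h5 := (lst_e he hk).1 hi
      refine ⟨f k, hw k hk, ?_⟩
      rw [ch_iff hz hG he hb hk]
      have h6 := h4 k hk
      rw [h5, h3] at h6
      exact h6

theorem next_bits (he : Enum M N e) {a : K}
    (ha : (nextLev M J z0 z1).D a) : ∃ b, Bits M e z0 z1 N a b := by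
  classical
  refine ⟨fun i => decide (M.E a (e i) z1), fun i hi => ?_⟩
  by_cases h : M.E a (e i) z1
  · simp [h]
  · simp only [h, decide_false, Bool.false_eq_true, if_false]
    exact (ha (e i) (enum_D he hi)).resolve_right h

theorem bits_next (he : Enum M N e) {a : K} {b : ℕ → Bool} (h : Bits M e z0 z1 N a b) :
    (nextLev M J z0 z1).D a := by
  intro x hx
  obtain ⟨i, hi, rfl⟩ := (he.1 _).1 hx
  have h1 := h i hi
  by_cases h2 : b i = true
  · rw [if_pos h2] at h1
    exact Or.inr h1
  · rw [if_neg h2] at h1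
    exact Or.inl h1

/-- the tree with the leaves `F b`; `m` is the number of the remaining levels -/
def tree (J : K → K → K) (N : ℕ) (F : (ℕ → Bool) → K) : ℕ → (ℕ → Bool) → K
  | 0, b => F b
  | m + 1, b => J (tree J N F m (Function.update b (N - (m + 1)) false))
      (tree J N F m (Function.update b (N - (m + 1)) true))

theorem tree_congr {F : (ℕ → Bool) → K}
    (hF : ∀ b b' : ℕ → Bool, (∀ i, i < N → b i = b' i) → F b = F b') (m : ℕ) (hm : m ≤ N)
    (b b' : ℕ → Bool) (h : ∀ i, i < N - m → b i = b' i) :
    tree J N F m b = tree J N F m b' := by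
  induction m generalizing b b' with
  | zero => exact hF b b' h
  | succ m ih =>
    simp only [tree]
    congr 1
    · refine ih (by omega) _ _ fun i hi => ?_
      by_cases h1 : i = N - (m + 1)
      · subst h1
        rw [Function.update_self, Function.update_self]
      · rw [Function.update_of_ne h1, Function.update_of_ne h1]
        exact h i (by omega)
    · refine ih (by omega) _ _ fun i hi => ?_
      by_cases h1 : i = N - (m + 1)
      · subst h1
        rw [Function.update_self, Function.update_self]
      · rw [Function.update_of_ne h1, Function.update_of_ne h1]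
        exact h i (by omega)

theorem node_tree {F : (ℕ → Bool) → K}
    (hF : ∀ b b' : ℕ → Bool, (∀ i, i < N → b i = b' i) → F b = F b') (b : ℕ → Bool) (b0 : ℕ → Bool)
    (k : ℕ) (hk : k ≤ N) : Node J (tree J N F N b0) b k (tree J N F (N - k) b) := by
  induction k with
  | zero =>
    show _ = _
    rw [Nat.sub_zero]
    exact tree_congr hF N le_rfl _ _ fun i hi => by omega
  | succ k ih =>
    have h1 := ih (by omega)
    refine ⟨_, h1, ?_⟩
    obtain ⟨m, hm⟩ : ∃ m, N - k = m + 1 := ⟨N - k - 1, by omega⟩
    have hm2 : N - (k + 1) = m := by omega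
    have hm3 : N - (m + 1) = k := by omega
    rw [hm, hm2]
    simp only [tree]
    rw [hm3]
    rcases hbk : b k with _ | _
    · refine ⟨tree J N F m (Function.update b k true), Or.inl ⟨rfl, ?_⟩⟩
      congr 1
      refine tree_congr hF m (by omega) b (Function.update b k false) fun i hi => ?_
      by_cases h2 : i = k
      · subst h2
        rw [Function.update_self, hbk]
      · rw [Function.update_of_ne h2]
    · refine ⟨tree J N F m (Function.update b k false), Or.inr ⟨rfl, ?_⟩⟩
      congr 1
      refine tree_congr hF m (by omega) b (Function.update b k true) fun i hi => ?_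
      by_cases h2 : i = k
      · subst h2
        rw [Function.update_self, hbk]
      · rw [Function.update_of_ne h2]

theorem good_next (hJ : Inj2 J) (hz : z0 ≠ z1) (hN : 1 ≤ N) (hG : Good M N) :
    Good (nextLev M J z0 z1) (2 ^ N) where
  enum := enum_next hz hG
  func := by
    obtain ⟨e, he⟩ := hG.enum
    intro s a v v' ha h h'
    obtain ⟨b, hb⟩ := next_bits he ha
    rw [eval_iff hz hN hG he hb] at h h'
    exact node_func hJ h h'
  comp := by
    obtain ⟨e, he⟩ := hG.enum
    intro φ
    choose c hc using fun b : ℕ → Bool =>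
      exists_bits (z0 := z0) (z1 := z1) hG he (fun i : Fin N => b i)
    have hc' : ∀ b, Bits M e z0 z1 N (c b) b := fun b i hi => hc b ⟨i, hi⟩
    have hF : ∀ b b' : ℕ → Bool, (∀ i, i < N → b i = b' i) → φ (c b) = φ (c b') := by
      intro b b' h
      congr 1
      refine ext_e hG he fun i hi => ⟨_, hc' b i hi, ?_⟩
      rw [h i hi]
      exact hc' b' i hi
    refine ⟨tree J N (fun b => φ (c b)) N (fun _ => false), fun a ha => ?_⟩
    obtain ⟨b, hb⟩ := next_bits he ha
    rw [eval_iff hz hN hG he hb]
    have h1 := node_tree (J := J) hF b (fun _ => false) N le_rfl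
    rw [Nat.sub_self] at h1
    have h2 : c b = a := ext_e hG he fun i hi => ⟨_, hc' b i hi, hb i hi⟩
    simp only [tree] at h1
    rwa [h2] at h1
  ext := by
    obtain ⟨e, he⟩ := hG.enum
    intro s s' h
    have h1 : ∀ b : ℕ → Bool, ∃ v, Node J s b N v ∧ Node J s' b N v := by
      intro b
      obtain ⟨a, ha⟩ := exists_bits (z0 := z0) (z1 := z1) hG he (fun i : Fin N => b i)
      have hb : Bits M e z0 z1 N a b := fun i hi => ha ⟨i, hi⟩
      obtain ⟨v, h2, h3⟩ := h a (bits_next he hb)
      rw [eval_iff hz hN hG he hb] at h2 h3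
      exact ⟨v, h2, h3⟩
    have h2 : ∀ m, m ≤ N → ∀ b : ℕ → Bool, ∃ v, Node J s b (N - m) v ∧ Node J s' b (N - m) v := by
      intro m
      induction m with
      | zero => exact fun _ => h1
      | succ m ih =>
        intro hm b
        obtain ⟨k, hk⟩ : ∃ k, N - m = k + 1 := ⟨N - m - 1, by omega⟩
        have hk2 : N - (m + 1) = k := by omega
        rw [hk2]
        have ih' := ih (by omega)
        rw [hk] at ih'
        obtain ⟨x0, ⟨y, hy, u, hu⟩, ⟨y', hy', u', hu'⟩⟩ := ih' (Function.update b k false)
        obtain ⟨x1, ⟨w, hw, r, hr⟩, ⟨w', hw', r', hr'⟩⟩ := ih' (Function.update b k true)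
        have e0 : ∀ (q : Bool) (s x : K), Node J s (Function.update b k q) k x ↔
            Node J s b k x := fun q s x =>
          node_congr (fun i hi => by rw [Function.update_of_ne (by omega)]) x
        rw [e0] at hy hy' hw hw'
        rw [Function.update_self] at hu hu' hr hr'
        have h3 := node_func hJ hy hw
        have h4 := node_func hJ hy' hw'
        subst h3 h4
        have h5 : J x0 u = y := by
          rcases hu with ⟨-, h⟩ | ⟨h, -⟩
          · exact h
          · exact absurd h Bool.false_ne_true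
        have h6 : J x0 u' = y' := by
          rcases hu' with ⟨-, h⟩ | ⟨h, -⟩
          · exact h
          · exact absurd h Bool.false_ne_true
        have h7 : J r x1 = y := by
          rcases hr with ⟨h, -⟩ | ⟨-, h⟩
          · exact absurd h.symm Bool.false_ne_true
          · exact h
        have h8 : J r' x1 = y' := by
          rcases hr' with ⟨h, -⟩ | ⟨-, h⟩
          · exact absurd h.symm Bool.false_ne_true
          · exact h
        have h9 := (hJ _ _ _ _ (h5.trans h7.symm)).2
        have h10 := (hJ _ _ _ _ (h6.trans h8.symm)).2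
        have h11 : y = y' := by rw [← h5, ← h6, h9, h10]
        exact ⟨y, hy, h11 ▸ hy'⟩
    obtain ⟨v, h3, h4⟩ := h2 N le_rfl (fun _ => false)
    rw [Nat.sub_self] at h3 h4
    exact h3.symm.trans h4

/-- the number of elements of the levels -/
theorem good_levN (hJ : Inj2 J) (hz : z0 ≠ z1) (n : ℕ) :
    Good (levN J z0 z1 n) (tower n 2) := by
  induction n with
  | zero => exact good_lev0 J z0 z1 hJ hz
  | succ n ih =>
    refine good_next hJ hz ?_ ih
    clear ih
    induction n with
    | zero => exact one_le_two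
    | succ n ih => exact Nat.one_le_two_pow

end

end Pool.Agent.K9h49.EL
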