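import Pool.Agent.K9h49.EL.SemP

/-! # Project EL: meaning of the templates, second part -/

set_option autoImplicit false
set_option linter.unusedSimpArgs false

namespace Pool.Agent.K9h49.EL

open Pool.Agent.Y924.EL Function

section

variable {K : Type} [CommRing K] {O : Set K} {t : K} {h : Fin 5 → Fm} {M : Lev K} {k : ℕ}
  {v : ℕ → K}

theorem sat_cNxt (hR : Rep O t h M) (hv : v 3 = t) {x y x' y' : ℕ} (hx : 20 ≤ x)
    (hy : 20 ≤ y) (hx' : 20 ≤ x') (hy' : 20 ≤ y') :
    Sat O ((Tp.cNxt x y x' y').inst h) v ↔ Nxt M (v x) (v y) (v x') (v y') := by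
  have h3 : ∀ x : K, update v 19 x 3 = t := fun x => by simpa [update_apply] using hv
  unfold Tp.cNxt Nxt
  rw [sat_or, sat_or, sat_or, sat_ex, sat_and, sat_and, sat_and, sat_and, sat_and, sat_and,
    sat_cSuc hR hv (by omega) (by omega) (by omega) (by omega),
    sat_cSuc hR hv (by omega) (by omega) (by omega) (by omega),
    sat_cSuc hR hv (by omega) (by omega) (by omega) (by omega),
    sat_cFst hR hv (by omega) (by omega), sat_cFst hR hv (by omega) (by omega),
    sat_cL hR hv (by omega) (by omega), sat_eqv, sat_eqv, sat_eqv]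
  refine or_congr (exists_congr fun u => ?_) Iff.rfl
  rw [sat_and, sat_and, sat_and, sat_cSuc hR (h3 u) (by omega) (by omega) (by omega) (by omega),
    sat_cL hR (h3 u) (by omega) (by omega), sat_eqv, sat_eqv, update_self,
    update_of_ne (by omega), update_of_ne (by omega), update_of_ne (by omega),
    update_of_ne (by omega)]

theorem sat_P1 (hR : Rep O t h M) (hv : v 3 = t) :
    Sat O (Tp.P1.inst h) v ↔ PairR M (v 0) (v 1) (v 2) := by
  rw [Tp.P1, sat_arg3, sat_and]
  obtain ⟨v1, hv1⟩ : ∃ v1, v1 = update (update (update v 10 (v 0)) 11 (v 1)) 12 (v 2) :=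
    ⟨_, rfl⟩
  have g : v1 3 = t := by rw [hv1]; simpa [update_apply] using hv
  have e10 : v1 10 = v 0 := by rw [hv1]; simp [update_apply]
  have e11 : v1 11 = v 1 := by rw [hv1]; simp [update_apply]
  have e12 : v1 12 = v 2 := by rw [hv1]; simp [update_apply]
  rw [← hv1, sat_cD hR g (by norm_num), e12, PairR]
  refine and_congr_right fun _ => ?_
  rw [sat_ex]
  refine exists_congr fun s => ?_
  rw [sat_ex]
  refine exists_congr fun r => ?_
  obtain ⟨v2, hv2⟩ : ∃ v2, v2 = update (update v1 13 s) 14 r := ⟨_, rfl⟩
  have g2 : v2 3 = t := by rw [hv2]; simpa [update_apply] using g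
  have f10 : v2 10 = v 0 := by rw [hv2]; simp [update_apply, e10]
  have f11 : v2 11 = v 1 := by rw [hv2]; simp [update_apply, e11]
  have f12 : v2 12 = v 2 := by rw [hv2]; simp [update_apply, e12]
  have f13 : v2 13 = s := by rw [hv2]; simp [update_apply]
  have f14 : v2 14 = r := by rw [hv2]; simp [update_apply]
  rw [← hv2, sat_and, sat_and, sat_and, sat_all, sat_all,
    sat_cE hR g2 (by norm_num) (by norm_num) (by norm_num),
    sat_cE hR g2 (by norm_num) (by norm_num) (by norm_num), f10, f11, f12, f13, f14]
  refine and_congr ?_ (and_congr ?_ Iff.rfl)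
  · refine forall_congr' fun i => ?_
    have g3 : update v2 15 i 3 = t := by simpa [update_apply] using g2
    rw [sat_imp, sat_and, sat_cFst hR g3 (by norm_num) (by norm_num),
      sat_cE hR g3 (by norm_num) (by norm_num) (by norm_num),
      sat_cE hR g3 (by norm_num) (by norm_num) (by norm_num)]
    simp [update_apply, f13, f14]
  · refine forall_congr' fun i => ?_
    rw [sat_all]
    refine forall_congr' fun j => ?_
    have g3 : update (update v2 15 i) 16 j 3 = t := by simpa [update_apply] using g2
    rw [sat_imp, sat_cSuc hR g3 (by norm_num) (by norm_num) (by norm_num) (by norm_num)]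
    refine imp_congr (by simp [update_apply]) ?_
    rw [sat_ex]
    refine exists_congr fun x => ?_
    rw [sat_ex]
    refine exists_congr fun y => ?_
    rw [sat_ex]
    refine exists_congr fun x' => ?_
    rw [sat_ex]
    refine exists_congr fun y' => ?_
    have g4 : update (update (update (update (update (update v2 15 i) 16 j) 20 x) 21 y) 22 x')
      23 y' 3 = t := by simpa [update_apply] using g2
    rw [sat_and, sat_and, sat_and, sat_and,
      sat_cE hR g4 (by norm_num) (by norm_num) (by norm_num),
      sat_cE hR g4 (by norm_num) (by norm_num) (by norm_num),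
      sat_cE hR g4 (by norm_num) (by norm_num) (by norm_num),
      sat_cE hR g4 (by norm_num) (by norm_num) (by norm_num),
      sat_cNxt hR g4 (by norm_num) (by norm_num) (by norm_num) (by norm_num)]
    simp [update_apply, f13, f14]

end

theorem t_SEMA0 : S_SEMA0 := by
  intro K _ O t h M hR
  refine ⟨fun v hv => hR v hv, fun v hv => ⟨?_, ?_⟩⟩
  · show Sat O (Tp.A0.inst h) v ↔ _
    rw [Tp.A0, sat_arg1, sat_cFst hR (by simpa [update_apply] using hv) (by norm_num)
      (by norm_num), update_self]
    exact Iff.rfl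
  · exact sat_P1 hR hv

theorem t_SEMA1 : S_SEMA1 := by
  intro K _ O t h M k hR hR2
  refine ⟨fun v hv => hR v hv, fun v hv => ⟨?_, (hR2 v hv).2⟩⟩
  show Sat O (Tp.A1.inst h) v ↔ _
  rw [Tp.A1, sat_arg1, sat_ex]
  refine exists_congr fun x => ?_
  have g : update (update v 10 (v 0)) 11 x 3 = t := by simpa [update_apply] using hv
  rw [sat_and, Tp.cA, sat_call1 O h _ _ (by norm_num), sat_hole,
    (hR2 _ (by simpa [update_apply] using hv)).1,
    sat_cSuc hR g (by norm_num) (by norm_num) (by norm_num) (by norm_num)]
  simp [update_apply]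

section

variable {K : Type} [CommRing K] {O : Set K} {t : K} {h : Fin 5 → Fm} {M : Lev K} {k : ℕ}
  {v : ℕ → K}

theorem sat_cA (hR2 : Rep2 O t h M k) (hv : v 3 = t) {a : ℕ} (ha : 10 ≤ a) :
    Sat O ((Tp.cA a).inst h) v ↔ Num M k (v a) := by
  rw [Tp.cA, sat_call1 O h v _ (by omega), sat_hole,
    (hR2 _ (by simpa [update_apply] using hv)).1]
  simp [update_apply]

theorem sat_cP (hR2 : Rep2 O t h M k) (hv : v 3 = t) {a b c : ℕ} (ha : 10 ≤ a) (hb : 10 ≤ b)
    (hc : 10 ≤ c) : Sat O ((Tp.cP a b c).inst h) v ↔ PairR M (v a) (v b) (v c) := by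
  rw [Tp.cP, sat_call3 O h v _ (by omega) (by omega) (by omega) (by omega) (by omega)
    (by omega), sat_hole, (hR2 _ (by simpa [update_apply] using hv)).2]
  simp [update_apply]

theorem sat_cNum (hR : Rep O t h M) (j : ℕ) {a : ℕ} (ha : 10 ≤ a) (ha' : a ≠ 18)
    (ha2 : a ≠ 30) (hv : v 3 = t) : Sat O ((Tp.cNum j a).inst h) v ↔ Num M j (v a) := by
  induction j generalizing a v with
  | zero => exact sat_cFst hR hv ha ha'
  | succ j ih =>
    rw [Tp.cNum]
    rw [sat_ex]
    constructor
    · rintro ⟨x, hx⟩
      rw [sat_and, sat_eqv, sat_ex, update_self, update_of_ne ha2] at hx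
      obtain ⟨rfl, y, hy⟩ := hx
      have g1 : update (update v 30 (v a)) 31 y 3 = t := by simpa [update_apply] using hv
      rw [sat_and, sat_ex, sat_cSuc hR g1 (by norm_num) (by norm_num) (by norm_num)
        (by norm_num)] at hy
      obtain ⟨⟨z, hz⟩, h2⟩ := hy
      have g2 : update (update (update v 30 (v a)) 31 y) 32 z 3 = t := by
        simpa [update_apply] using hv
      rw [sat_and, sat_eqv, ih (by norm_num) (by norm_num) (by norm_num) g2] at hz
      simp [update_apply] at hz h2
      obtain ⟨rfl, hz⟩ := hz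
      exact ⟨z, hz, h2⟩
    · rintro ⟨y, hy, h2⟩
      refine ⟨v a, ?_⟩
      rw [sat_and, sat_eqv, sat_ex, update_self, update_of_ne ha2]
      refine ⟨rfl, y, ?_⟩
      have g1 : update (update v 30 (v a)) 31 y 3 = t := by simpa [update_apply] using hv
      rw [sat_and, sat_ex, sat_cSuc hR g1 (by norm_num) (by norm_num) (by norm_num)
        (by norm_num)]
      refine ⟨⟨y, ?_⟩, by simpa [update_apply] using h2⟩
      have g2 : update (update (update v 30 (v a)) 31 y) 32 y 3 = t := by
        simpa [update_apply] using hv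
      rw [sat_and, sat_eqv, ih (by norm_num) (by norm_num) (by norm_num) g2]
      simpa [update_apply] using hy

theorem sat_cMem (hR : Rep O t h M) (hR2 : Rep2 O t h M k) (hv : v 3 = t) {w c x y : ℕ}
    (hw : 10 ≤ w) (hc : 10 ≤ c) (hx : 10 ≤ x) (hy : 10 ≤ y) (hw' : w ∉ [27, 28, 29])
    (hc' : c ∉ [27, 28]) (hx' : x ∉ [27, 28]) (hy' : y ∉ [27, 28]) :
    Sat O ((Tp.cMem w c x y).inst h) v ↔ Mem M 1 (v w) (v c) (v x) (v y) := by
  simp only [List.mem_cons, List.not_mem_nil, or_false, not_or] at hw' hc' hx' hy'
  rw [Tp.cMem, sat_ex, Mem]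
  refine exists_congr fun q => ?_
  rw [sat_ex]
  refine exists_congr fun u => ?_
  have g : update (update v 27 q) 28 u 3 = t := by simpa [update_apply] using hv
  rw [sat_and, sat_and, sat_cP hR2 g hx hy (by norm_num), sat_cP hR2 g hc (by norm_num)
    (by norm_num), sat_cE1 hR g hw (by norm_num) hw'.2.2 (by norm_num)]
  rw [update_self, update_of_ne (show (27 : ℕ) ≠ 28 by norm_num), update_self,
    update_of_ne hx'.2, update_of_ne hx'.1, update_of_ne hy'.2, update_of_ne hy'.1,
    update_of_ne hc'.2, update_of_ne hc'.1, update_of_ne hw'.2.1, update_of_ne hw'.1]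

theorem sat_cRec (hR : Rep O t h M) (hR2 : Rep2 O t h M k) (hv : v 3 = t) :
    Sat O (Tp.cRec.inst h) v ↔ ∃ z n, PairR M z n (v 42) ∧
      ((Fst M n ∧ Mem M 1 (v 13) (v 46) z (v 43)) ∨
        ∃ k i xk q2 x2, Suc M k n ∧ PairR M z k xk ∧ Mem M 1 (v 13) (v 40) xk i ∧
          PairR M k i q2 ∧ PairR M z q2 x2 ∧ Mem M 1 (v 13) (v 47) x2 (v 43)) := by
  rw [Tp.cRec, sat_ex]
  refine exists_congr fun z => ?_
  rw [sat_ex]
  refine exists_congr fun n => ?_
  have g : update (update v 48 z) 49 n 3 = t := by simpa [update_apply] using hv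
  rw [sat_and, sat_or, sat_and, sat_cP hR2 g (by norm_num) (by norm_num) (by norm_num),
    sat_cFst hR g (by norm_num) (by norm_num),
    sat_cMem hR hR2 g (by norm_num) (by norm_num) (by norm_num) (by norm_num) (by decide)
      (by decide) (by decide) (by decide), sat_ex]
  refine and_congr (by simp [update_apply]) (or_congr (by simp [update_apply]) ?_)
  refine exists_congr fun k' => ?_
  rw [sat_ex]
  refine exists_congr fun i => ?_
  rw [sat_ex]
  refine exists_congr fun xk => ?_
  rw [sat_ex]
  refine exists_congr fun q2 => ?_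
  rw [sat_ex]
  refine exists_congr fun x2 => ?_
  have g4 : update (update (update (update (update (update (update v 48 z) 49 n) 50 k') 51 i)
    52 xk) 53 q2) 54 x2 3 = t := by simpa [update_apply] using hv
  rw [sat_and, sat_and, sat_and, sat_and, sat_and,
    sat_cSuc hR g4 (by norm_num) (by norm_num) (by norm_num) (by norm_num),
    sat_cP hR2 g4 (by norm_num) (by norm_num) (by norm_num),
    sat_cP hR2 g4 (by norm_num) (by norm_num) (by norm_num),
    sat_cP hR2 g4 (by norm_num) (by norm_num) (by norm_num),
    sat_cMem hR hR2 g4 (by norm_num) (by norm_num) (by norm_num) (by norm_num) (by decide)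
      (by decide) (by decide) (by decide),
    sat_cMem hR hR2 g4 (by norm_num) (by norm_num) (by norm_num) (by norm_num) (by decide)
      (by decide) (by decide) (by decide)]
  simp [update_apply]

theorem sat_cJust (hR : Rep O t h M) (hR2 : Rep2 O t h M k) (hv : v 3 = t) :
    Sat O (Tp.cJust.inst h) v ↔ JustR M 1 (v 13) (v 14) := by
  rw [Tp.cJust, sat_ex, JustR]
  refine exists_congr fun c => ?_
  rw [sat_ex]
  refine exists_congr fun q => ?_
  rw [sat_ex]
  refine exists_congr fun x => ?_
  rw [sat_ex]
  refine exists_congr fun y => ?_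
  rw [sat_ex]
  refine exists_congr fun g => ?_
  rw [sat_ex]
  refine exists_congr fun c' => ?_
  rw [sat_ex]
  refine exists_congr fun c1 => ?_
  rw [sat_ex]
  refine exists_congr fun c2 => ?_
  obtain ⟨v1, hv1⟩ : ∃ v1, v1 = update (update (update (update (update (update (update
    (update v 40 c) 41 q) 42 x) 43 y) 44 g) 45 c') 46 c1) 47 c2 := ⟨_, rfl⟩
  have g1 : v1 3 = t := by rw [hv1]; simpa [update_apply] using hv
  have e13 : v1 13 = v 13 := by rw [hv1]; simp [update_apply]
  have e14 : v1 14 = v 14 := by rw [hv1]; simp [update_apply]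
  have e40 : v1 40 = c := by rw [hv1]; simp [update_apply]
  have e41 : v1 41 = q := by rw [hv1]; simp [update_apply]
  have e42 : v1 42 = x := by rw [hv1]; simp [update_apply]
  have e43 : v1 43 = y := by rw [hv1]; simp [update_apply]
  have e44 : v1 44 = g := by rw [hv1]; simp [update_apply]
  have e45 : v1 45 = c' := by rw [hv1]; simp [update_apply]
  have e46 : v1 46 = c1 := by rw [hv1]; simp [update_apply]
  have e47 : v1 47 = c2 := by rw [hv1]; simp [update_apply]
  rw [← hv1, sat_and, sat_and, sat_and, sat_and,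
    sat_cP hR2 g1 (by norm_num) (by norm_num) (by norm_num),
    sat_cP hR2 g1 (by norm_num) (by norm_num) (by norm_num),
    sat_cP hR2 g1 (by norm_num) (by norm_num) (by norm_num),
    sat_cP hR2 g1 (by norm_num) (by norm_num) (by norm_num), e14, e40, e41, e42, e43, e44,
    e45, e46, e47]
  refine and_congr_right fun _ => and_congr_right fun _ => and_congr_right fun _ =>
    and_congr_right fun _ => ?_
  have hnum : ∀ j : ℕ, Sat O ((Tp.cNum j 44).inst h) v1 ↔ Num M j g := fun j => by
    rw [sat_cNum hR j (by norm_num) (by norm_num) (by norm_num) g1, e44]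
  rw [Tp.cCases]
  simp only [sat_or, sat_and, hnum]
  refine or_congr (and_congr_right fun _ => ?_) (or_congr (and_congr_right fun _ => ?_)
    (or_congr (and_congr_right fun _ => ?_) (or_congr (and_congr_right fun _ => ?_)
    (or_congr (and_congr_right fun _ => ?_) (or_congr (and_congr_right fun _ => ?_)
    (and_congr_right fun _ => ?_))))))
  · rw [sat_cFst hR g1 (by norm_num) (by norm_num), e43]
  · rw [sat_cSuc hR g1 (by norm_num) (by norm_num) (by norm_num) (by norm_num), e42, e43]
  · rw [sat_ex]
    refine exists_congr fun a => ?_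
    rw [sat_cP hR2 (by simpa [update_apply] using g1) (by norm_num) (by norm_num)
      (by norm_num)]
    simp [update_apply, e42, e43]
  · rw [sat_ex]
    refine exists_congr fun a => ?_
    rw [sat_cP hR2 (by simpa [update_apply] using g1) (by norm_num) (by norm_num)
      (by norm_num)]
    simp [update_apply, e42, e43]
  · rw [sat_ex]
    refine exists_congr fun a => ?_
    rw [sat_ex]
    refine exists_congr fun b => ?_
    have g2 : update (update v1 48 a) 49 b 3 = t := by simpa [update_apply] using g1
    rw [sat_and, sat_and, sat_cP hR2 g2 (by norm_num) (by norm_num) (by norm_num),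
      sat_cMem hR hR2 g2 (by norm_num) (by norm_num) (by norm_num) (by norm_num) (by decide)
        (by decide) (by decide) (by decide),
      sat_cMem hR hR2 g2 (by norm_num) (by norm_num) (by norm_num) (by norm_num) (by decide)
        (by decide) (by decide) (by decide)]
    simp [update_apply, e13, e42, e43, e46, e47]
  · rw [sat_ex]
    refine exists_congr fun a => ?_
    have g2 : update v1 48 a 3 = t := by simpa [update_apply] using g1
    rw [sat_and,
      sat_cMem hR hR2 g2 (by norm_num) (by norm_num) (by norm_num) (by norm_num) (by decide)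
        (by decide) (by decide) (by decide),
      sat_cMem hR hR2 g2 (by norm_num) (by norm_num) (by norm_num) (by norm_num) (by decide)
        (by decide) (by decide) (by decide)]
    simp [update_apply, e13, e42, e43, e46, e47]
  · rw [sat_cRec hR hR2 g1, e13, e40, e42, e43, e46, e47]

theorem sat_cUni (hR : Rep O t h M) (hR2 : Rep2 O t h M k) (hv : v 3 = t) :
    Sat O (Tp.cUni.inst h) v ↔ Uni M 1 (v 10) (v 11) (v 12) := by
  rw [Tp.cUni, sat_ex, Uni]
  refine exists_congr fun w => ?_
  have g : update v 13 w 3 = t := by simpa [update_apply] using hv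
  rw [sat_and, sat_all, sat_cMem hR hR2 g (by norm_num) (by norm_num) (by norm_num)
    (by norm_num) (by decide) (by decide) (by decide) (by decide)]
  refine and_congr (forall_congr' fun u => ?_) (by simp [update_apply])
  have g2 : update (update v 13 w) 14 u 3 = t := by simpa [update_apply] using hv
  rw [sat_imp, sat_imp, sat_cD hR g2 (by norm_num),
    sat_cE1 hR g2 (by norm_num) (by norm_num) (by norm_num) (by norm_num),
    sat_cJust hR hR2 g2]
  simp [update_apply]

end

theorem t_SEMB : S_SEMB := by
  intro K _ O t h M k hR hR2 v hv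
  rw [Tp.Body, sat_ex]
  refine exists_congr fun n => ?_
  have g : update v 11 n 3 = t := by simpa [update_apply] using hv
  rw [sat_and, sat_ex, sat_cA hR2 g (by norm_num), update_self]
  constructor
  · rintro ⟨h1, c, hc⟩
    rw [sat_ex] at hc
    obtain ⟨r, hr⟩ := hc
    have g2 : update (update (update v 11 n) 10 c) 15 r 3 = t := by
      simpa [update_apply] using hv
    rw [sat_and, sat_ex, sat_cP hR2 g2 (by norm_num) (by norm_num) (by norm_num)] at hr
    obtain ⟨h2, y, hy⟩ := hr
    have g3 : update (update (update (update v 11 n) 10 c) 15 r) 12 y 3 = t := by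
      simpa [update_apply] using hv
    rw [sat_and, sat_cNum hR 1 (by norm_num) (by norm_num) (by norm_num) g3,
      sat_cUni hR hR2 g3] at hy
    simp [update_apply] at h2 hy
    exact ⟨c, r, y, h1, h2, hy.1, hy.2⟩
  · rintro ⟨c, r, y, h1, h2, h3, h4⟩
    refine ⟨h1, c, ?_⟩
    rw [sat_ex]
    refine ⟨r, ?_⟩
    have g2 : update (update (update v 11 n) 10 c) 15 r 3 = t := by
      simpa [update_apply] using hv
    rw [sat_and, sat_ex, sat_cP hR2 g2 (by norm_num) (by norm_num) (by norm_num)]
    refine ⟨by simpa [update_apply] using h2, y, ?_⟩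
    have g3 : update (update (update (update v 11 n) 10 c) 15 r) 12 y 3 = t := by
      simpa [update_apply] using hv
    rw [sat_and, sat_cNum hR 1 (by norm_num) (by norm_num) (by norm_num) g3,
      sat_cUni hR hR2 g3]
    simp [update_apply]
    exact ⟨h3, h4⟩

theorem t_SEMI : S_SEMI := by
  intro K _ O p t h v hv
  rw [Tp.InjT]
  simp only [sat_all, sat_imp, sat_and, sat_eqv]
  have h1 : ∀ a b c d e : K, (update (update (update (update (update v 10 a) 11 b) 12 c) 13 d)
      14 e) 3 = t := fun a b c d e => by simpa [update_apply] using hv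
  simp only [sat_cJ p (show 10 ≤ 10 by norm_num) (show 10 ≤ 11 by norm_num)
    (show 10 ≤ 14 by norm_num), sat_cJ p (show 10 ≤ 12 by norm_num) (show 10 ≤ 13 by norm_num)
    (show 10 ≤ 14 by norm_num), h1]
  constructor
  · intro hh x y x' y' he
    have h2 := hh x y x' y' (JJ p t x y)
    simp [update_apply] at h2
    exact h2 he.symm
  · intro hh a b c d e h2 h3
    simp [update_apply] at h2 h3 ⊢
    exact hh a b c d (h2.trans h3.symm)

end Pool.Agent.K9h49.EL
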