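import Pool.Agent.Y555.EL.Code

/-! # Project EL: the sentences are closed, use few variables, and have large codes -/

set_option autoImplicit false
set_option linter.unusedSimpArgs false

namespace Pool.Agent.K9h49.EL

open Pool.Agent.Y924.EL

/-! ## Free variables -/

/-- an upper bound for the free variables of a filled template -/
def fvb (F : Fin 5 → Finset ℕ) : Tp → Finset ℕ
  | .hole i => F i
  | .atom φ => φ.fv
  | .neg τ => fvb F τ
  | .and τ υ => fvb F τ ∪ fvb F υ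
  | .ex i τ => (fvb F τ).erase i

theorem fv_inst (F : Fin 5 → Finset ℕ) (h : Fin 5 → Fm) (hF : ∀ i, (h i).fv ⊆ F i) (τ : Tp) :
    (τ.inst h).fv ⊆ fvb F τ := by
  induction τ with
  | hole i => exact hF i
  | atom φ => exact Finset.Subset.refl _
  | neg τ ih => exact ih
  | and τ υ ih1 ih2 => exact Finset.union_subset_union ih1 ih2
  | ex i τ ih => exact Finset.erase_subset_erase _ ih

theorem fv_powF (k : ℕ) : (powF (k + 1)).fv = {4, 5} := by
  induction k with
  | zero => decide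
  | succ k ih =>
    rw [powF]
    simp only [Fm.fv, ih]
    decide

theorem fv_JF {p : ℕ} (hp : 1 ≤ p) : (JF p).fv = {0, 1, 2, 3} := by
  obtain ⟨k, rfl⟩ : ∃ k, p = k + 1 := ⟨p - 1, by omega⟩
  simp only [JF, Fm.fv, fv_powF]
  decide

/-- the bounds for the holes -/
def FF : Fin 5 → Finset ℕ := ![{0, 3}, {0, 1, 3}, {0, 1, 2, 3}, {0, 3}, {0, 1, 2, 3}]

theorem fvb_D1 : fvb FF Tp.D1 ⊆ {0, 3} := by decide +kernel
theorem fvb_L1 : fvb FF Tp.L1 ⊆ {0, 1, 3} := by decide +kernel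
theorem fvb_A0 : fvb FF Tp.A0 ⊆ {0, 3} := by decide +kernel
theorem fvb_A1 : fvb FF Tp.A1 ⊆ {0, 3} := by decide +kernel
theorem fvb_P1 : fvb FF Tp.P1 ⊆ {0, 1, 2, 3} := by decide +kernel
theorem fvb_Body : fvb FF Tp.Body ⊆ {3} := by decide +kernel

theorem fvb_cJ {p : ℕ} (hp : 1 ≤ p) (a b c : ℕ) : fvb FF (Tp.cJ p a b c) = fvb FF (Tp.cJ 1 a b c) := by
  simp only [Tp.cJ, Tp.call3, fvb, fv_JF hp, fv_JF (le_refl 1)]

theorem fvb_E0 {p : ℕ} (hp : 1 ≤ p) : fvb FF (Tp.E0 p) ⊆ {0, 1, 2, 3} := by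
  have h : fvb FF (Tp.E0 p) = fvb FF (Tp.E0 1) := by
    simp only [Tp.E0, Tp.arg3, Tp.or, fvb, fvb_cJ hp]
  rw [h]
  decide +kernel

theorem fvb_E1 {p : ℕ} (hp : 1 ≤ p) : fvb FF (Tp.E1 p) ⊆ {0, 1, 2, 3} := by
  have h : fvb FF (Tp.E1 p) = fvb FF (Tp.E1 1) := by
    simp only [Tp.E1, Tp.arg3, Tp.or, Tp.imp, Tp.all, Tp.cCh, fvb, fvb_cJ hp]
  rw [h]
  decide +kernel

theorem fvb_InjT {p : ℕ} (hp : 1 ≤ p) : fvb FF (Tp.InjT p) ⊆ {3} := by
  have h : fvb FF (Tp.InjT p) = fvb FF (Tp.InjT 1) := by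
    simp only [Tp.InjT, Tp.imp, Tp.all, fvb, fvb_cJ hp]
  rw [h]
  decide +kernel

theorem fv_h0 {p : ℕ} (hp : 1 ≤ p) (i : Fin 5) : (h0 p i).fv ⊆ FF i := by
  have h : ∀ τ : Tp, (τ.inst fun _ => Fm.one 0).fv ⊆ fvb FF τ := fun τ =>
    fv_inst FF _ (fun i => by fin_cases i <;> decide) τ
  fin_cases i
  · exact (h _).trans (by decide +kernel)
  · exact (h _).trans (by decide +kernel)
  · exact (h _).trans (fvb_E0 hp)
  · show (Fm.one 0).fv ⊆ FF 3
    decide
  · show (Fm.one 0).fv ⊆ FF 4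
    decide

theorem fv_step (T : Fin 5 → Tp) (hT : ∀ i, fvb FF (T i) ⊆ FF i) (h : Fin 5 → Fm)
    (hh : ∀ i, (h i).fv ⊆ FF i) (i : Fin 5) : (stepH T h i).fv ⊆ FF i :=
  (fv_inst FF h hh (T i)).trans (hT i)

theorem fv_iter (T : Fin 5 → Tp) (hT : ∀ i, fvb FF (T i) ⊆ FF i) (h : Fin 5 → Fm)
    (hh : ∀ i, (h i).fv ⊆ FF i) (m : ℕ) : ∀ i, ((stepH T)^[m] h i).fv ⊆ FF i := by
  induction m with
  | zero => exact hh
  | succ m ih =>
    rw [Function.iterate_succ_apply']
    exact fv_step T hT _ ih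

theorem fv_TL {p : ℕ} (hp : 1 ≤ p) (i : Fin 5) : fvb FF (TL p i) ⊆ FF i := by
  fin_cases i
  · exact fvb_D1
  · exact fvb_L1
  · exact fvb_E1 hp
  · exact Finset.Subset.refl _
  · exact Finset.Subset.refl _

theorem fv_TA0 (i : Fin 5) : fvb FF (TA0 i) ⊆ FF i := by
  fin_cases i
  · exact Finset.Subset.refl _
  · exact Finset.Subset.refl _
  · exact Finset.Subset.refl _
  · exact fvb_A0
  · exact fvb_P1

theorem fv_TA1 (i : Fin 5) : fvb FF (TA1 i) ⊆ FF i := by
  fin_cases i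
  · exact Finset.Subset.refl _
  · exact Finset.Subset.refl _
  · exact Finset.Subset.refl _
  · exact fvb_A1
  · exact Finset.Subset.refl _

/-- the sentences are closed -/
theorem fv_sent {p : ℕ} (hp : 1 ≤ p) (m : ℕ) : (sent p m).fv = ∅ := by
  have h1 := fv_iter _ fv_TA1 _ (fv_step _ fv_TA0 _ (fv_iter _ (fv_TL hp) _ (fv_h0 hp) m)) m
  have h2 := fv_inst FF _ h1 (Tp.Fin1 p)
  have h3 : fvb FF (Tp.Fin1 p) = ∅ := by
    rw [Tp.Fin1]
    simp only [fvb]
    refine Finset.eq_empty_of_forall_notMem fun x hx => ?_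
    rw [Finset.mem_erase] at hx
    rcases Finset.mem_union.1 hx.2 with h | h
    · exact hx.1 (Finset.mem_singleton.1 (fvb_InjT hp h))
    · exact hx.1 (Finset.mem_singleton.1 (fvb_Body h))
  rw [h3] at h2
  exact Finset.subset_empty.1 h2

/-! ## Few variables -/

/-- the test for `Fm.InRing` -/
def rb (V : ℕ) : Fm → Bool
  | .eq i j => decide (i < V) && decide (j < V)
  | .one i => decide (i < V)
  | .add i j k => decide (i < V) && (decide (j < V) && decide (k < V))
  | .mul i j k => decide (i < V) && (decide (j < V) && decide (k < V))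
  | .val _ => false
  | .neg φ => rb V φ
  | .and φ ψ => rb V φ && rb V ψ
  | .ex i φ => decide (i < V) && rb V φ

theorem inRing_of_rb {V : ℕ} {φ : Fm} (h : rb V φ = true) : φ.InRing V := by
  induction φ with
  | eq i j => simpa [rb, Fm.InRing] using h
  | one i => simpa [rb, Fm.InRing] using h
  | add i j k => simpa [rb, Fm.InRing] using h
  | mul i j k => simpa [rb, Fm.InRing] using h
  | val i => simp [rb] at h
  | neg φ ih => exact ih h
  | and φ ψ ih1 ih2 =>
    simp only [rb, Bool.and_eq_true] at h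
    exact ⟨ih1 h.1, ih2 h.2⟩
  | ex i φ ih =>
    simp only [rb, Bool.and_eq_true, decide_eq_true_eq] at h
    exact ⟨h.1, ih h.2⟩

/-- the test for templates -/
def tb (V : ℕ) : Tp → Bool
  | .hole _ => true
  | .atom φ => rb V φ
  | .neg τ => tb V τ
  | .and τ υ => tb V τ && tb V υ
  | .ex i τ => decide (i < V) && tb V τ

theorem rb_inst {V : ℕ} {h : Fin 5 → Fm} (hh : ∀ i, rb V (h i) = true) {τ : Tp}
    (hτ : tb V τ = true) : rb V (τ.inst h) = true := by
  induction τ with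
  | hole i => exact hh i
  | atom φ => exact hτ
  | neg τ ih => exact ih hτ
  | and τ υ ih1 ih2 =>
    simp only [tb, Bool.and_eq_true] at hτ
    simp only [Tp.inst, rb, Bool.and_eq_true]
    exact ⟨ih1 hτ.1, ih2 hτ.2⟩
  | ex i τ ih =>
    simp only [tb, Bool.and_eq_true] at hτ
    simp only [Tp.inst, rb, Bool.and_eq_true]
    exact ⟨hτ.1, ih hτ.2⟩

theorem rb_powF (k : ℕ) : rb 64 (powF k) = true := by
  induction k with
  | zero => rfl
  | succ k ih =>
    simp only [powF, rb, ih]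
    rfl

theorem rb_JF (p : ℕ) : rb 64 (JF p) = true := by
  simp only [JF, rb, rb_powF]
  rfl

theorem tb_cJ (p : ℕ) {a b c : ℕ} : tb 64 (Tp.cJ p a b c) = tb 64 (Tp.cJ 1 a b c) := by
  simp only [Tp.cJ, Tp.call3, tb, rb_JF]

theorem tb_E0 (p : ℕ) : tb 64 (Tp.E0 p) = true := by
  have h : tb 64 (Tp.E0 p) = tb 64 (Tp.E0 1) := by
    simp only [Tp.E0, Tp.arg3, Tp.or, tb, tb_cJ p]
  rw [h]
  decide +kernel

theorem tb_E1 (p : ℕ) : tb 64 (Tp.E1 p) = true := by
  have h : tb 64 (Tp.E1 p) = tb 64 (Tp.E1 1) := by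
    simp only [Tp.E1, Tp.arg3, Tp.or, Tp.imp, Tp.all, Tp.cCh, tb, tb_cJ p]
  rw [h]
  decide +kernel

theorem tb_InjT (p : ℕ) : tb 64 (Tp.InjT p) = true := by
  have h : tb 64 (Tp.InjT p) = tb 64 (Tp.InjT 1) := by
    simp only [Tp.InjT, Tp.imp, Tp.all, tb, tb_cJ p]
  rw [h]
  decide +kernel

theorem tb_Body : tb 64 Tp.Body = true := by decide +kernel

theorem tb_TL (p : ℕ) (i : Fin 5) : tb 64 (TL p i) = true := by
  fin_cases i
  · show tb 64 Tp.D1 = true
    decide +kernel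
  · show tb 64 Tp.L1 = true
    decide +kernel
  · exact tb_E1 p
  · rfl
  · rfl

theorem tb_TA0 (i : Fin 5) : tb 64 (TA0 i) = true := by
  fin_cases i <;> decide +kernel

theorem tb_TA1 (i : Fin 5) : tb 64 (TA1 i) = true := by
  fin_cases i <;> decide +kernel

theorem rb_h0 (p : ℕ) (i : Fin 5) : rb 64 (h0 p i) = true := by
  have h : ∀ i : Fin 5, rb 64 ((fun _ => Fm.one 0 : Fin 5 → Fm) i) = true := fun _ => rfl
  fin_cases i
  · exact rb_inst h (by decide +kernel)
  · exact rb_inst h (by decide +kernel)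
  · exact rb_inst h (tb_E0 p)
  · rfl
  · rfl

theorem rb_iter (T : Fin 5 → Tp) (hT : ∀ i, tb 64 (T i) = true) (h : Fin 5 → Fm)
    (hh : ∀ i, rb 64 (h i) = true) (m : ℕ) : ∀ i, rb 64 ((stepH T)^[m] h i) = true := by
  induction m with
  | zero => exact hh
  | succ m ih =>
    rw [Function.iterate_succ_apply']
    exact fun i => rb_inst ih (hT i)

/-- the sentences use only 64 variables, and not the valuation -/
theorem ring_sent (p m : ℕ) : (sent p m).InRing 64 := by
  refine inRing_of_rb (rb_inst (rb_iter _ tb_TA1 _ (fun i => rb_inst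
    (rb_iter _ (tb_TL p) _ (rb_h0 p) m) (tb_TA0 i)) m) ?_)
  rw [Tp.Fin1]
  simp only [tb, tb_InjT, tb_Body]
  rfl

/-! ## The codes -/

/-- hole 3 occurs in the template, below at least one connective, or the template is hole 3 -/
def occ : Tp → Bool
  | .hole i => decide (i = 3)
  | .atom _ => false
  | .neg τ => occ τ
  | .and τ υ => occ τ || occ υ
  | .ex _ τ => occ τ

theorem code_ge (h : Fin 5 → Fm) {τ : Tp} (hτ : occ τ = true) : (h 3).code ≤ (τ.inst h).code := by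
  induction τ with
  | hole i =>
    simp only [occ, decide_eq_true_eq] at hτ
    subst hτ
    exact le_rfl
  | atom φ => simp [occ] at hτ
  | neg τ ih =>
    refine (ih hτ).trans ?_
    exact Nat.right_le_pair _ _
  | and τ υ ih1 ih2 =>
    simp only [occ, Bool.or_eq_true] at hτ
    rcases hτ with h1 | h1
    · refine (ih1 h1).trans ?_
      exact (Nat.left_le_pair _ _).trans (Nat.right_le_pair _ _)
    · refine (ih2 h1).trans ?_
      exact (Nat.right_le_pair _ _).trans (Nat.right_le_pair _ _)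
  | ex i τ ih =>
    refine (ih hτ).trans ?_
    exact (Nat.right_le_pair _ _).trans (Nat.right_le_pair _ _)

theorem code_A1 (h : Fin 5 → Fm) : (h 3).code + 1 ≤ (Tp.A1.inst h).code := by
  have h1 : (h 3).code ≤ ((Tp.and (Tp.eqv 10 0)
      (.ex 11 (.and (Tp.cA 11) (Tp.cSuc 11 10)))).inst h).code := code_ge h (by decide +kernel)
  have h2 : (Tp.A1.inst h).code = Nat.pair 7 (Nat.pair 10 ((Tp.and (Tp.eqv 10 0)
      (.ex 11 (.and (Tp.cA 11) (Tp.cSuc 11 10)))).inst h).code) := rfl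
  rw [h2]
  have h3 := Nat.add_le_pair 7 (Nat.pair 10 ((Tp.and (Tp.eqv 10 0)
      (.ex 11 (.and (Tp.cA 11) (Tp.cSuc 11 10)))).inst h).code)
  have h4 := Nat.add_le_pair 10 ((Tp.and (Tp.eqv 10 0)
      (.ex 11 (.and (Tp.cA 11) (Tp.cSuc 11 10)))).inst h).code
  omega

/-- the codes of the sentences tend to infinity -/
theorem grow_sent (p m : ℕ) : m ≤ (sent p m).code := by
  have h1 : ∀ (n : ℕ) (h : Fin 5 → Fm), n ≤ (((stepH TA1)^[n] h) 3).code := by
    intro n
    induction n with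
    | zero => exact fun _ => Nat.zero_le _
    | succ n ih =>
      intro h
      rw [Function.iterate_succ_apply']
      exact (Nat.succ_le_succ (ih h)).trans (code_A1 _)
  refine (h1 m _).trans (code_ge (hfin p m) ?_)
  rw [Tp.Fin1]
  simp only [occ]
  have : occ Tp.Body = true := by decide +kernel
  rw [this, Bool.or_true]

end Pool.Agent.K9h49.EL
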