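import Pool.Agent.K9h49.EL.Lev
import Pool.Agent.K9h49.EL.SemQ
import Pool.Agent.K9h49.EL.Syn
import Pool.Agent.Y151.EL.Uniq
import Pool.Agent.Y154.EL.Evaln
import Pool.Agent.Y638.EL.Rec
import Pool.Agent.Y972.EL.UNI

/-! # Project EL: the theory of an imperfect field is not elementary -/

set_option autoImplicit false

namespace Pool.Agent.K9h49.EL

open Pool.Agent.Y924.EL Function

/-! ## The pairing -/

theorem inj_JJ (K : Type) [Field K] (p : ℕ) [Fact p.Prime] [CharP K p] (t : K)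
    (ht : ∀ u : K, u ^ p ≠ t) : Inj2 (JJ p t) := by
  intro x y x' y' h
  unfold JJ at h
  have h1 : (x - x') ^ p = t * (y' - y) ^ p := by
    rw [sub_pow_char, sub_pow_char]
    linear_combination h
  have h2 : y' - y = 0 := by
    by_contra h3
    refine ht ((x - x') / (y' - y)) ?_
    rw [div_pow, h1, mul_div_assoc, div_self (pow_ne_zero p h3), mul_one]
  rw [h2, zero_pow (Nat.Prime.ne_zero Fact.out), mul_zero] at h1
  have h3 := pow_eq_zero_iff (Nat.Prime.ne_zero (Fact.out : p.Prime)) |>.1 h1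
  exact ⟨sub_eq_zero.1 h3, (sub_eq_zero.1 h2).symm⟩

/-! ## The meaning of the sentences -/

section

variable {K : Type} [CommRing K] (O : Set K) (p : ℕ) (t : K)

theorem rep_levels (m : ℕ) : Rep O t ((stepH (TL p))^[m] (h0 p)) (levN (JJ p t) 0 1 m) := by
  induction m with
  | zero => exact t_SEM0 K O p t
  | succ m ih =>
    rw [iterate_succ_apply']
    exact t_SEM1 K O p t _ _ ih

theorem rep_hfin (m : ℕ) : Rep O t (hfin p m) (levN (JJ p t) 0 1 m) ∧
    Rep2 O t (hfin p m) (levN (JJ p t) 0 1 m) m := by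
  have h1 := t_SEMA0 K O t _ _ (rep_levels O p t m)
  have h2 : ∀ n, Rep O t ((stepH TA1)^[n] (stepH TA0 ((stepH (TL p))^[m] (h0 p))))
      (levN (JJ p t) 0 1 m) ∧
      Rep2 O t ((stepH TA1)^[n] (stepH TA0 ((stepH (TL p))^[m] (h0 p))))
      (levN (JJ p t) 0 1 m) n := by
    intro n
    induction n with
    | zero => exact h1
    | succ n ih =>
      rw [iterate_succ_apply']
      exact t_SEMA1 K O t _ _ n ih.1 ih.2
  exact h2 m

/-- the statement of the sentence number `m` -/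
def Stat (m : ℕ) : Prop :=
  ∃ W : Set ℕ, Closed W ∧ tr m.unpair.1 m 1 ∈ W ∧ ∀ x ∈ W, x < tower m 2

theorem two_le_tower (m : ℕ) : 2 ≤ tower m 2 := by
  have := Pool.Agent.Y151.EL.tower_ge m
  omega

theorem lt_tower (m : ℕ) : m < tower m 2 := by
  have := Pool.Agent.Y151.EL.tower_ge m
  omega

theorem sat_body (hJ : Inj2 (JJ p t)) (hz : (0 : K) ≠ 1) (m : ℕ) (v : ℕ → K) (hv : v 3 = t) :
    Sat O (Tp.Body.inst (hfin p m)) v ↔ Stat m := by
  obtain ⟨hR, hR2⟩ := rep_hfin O p t m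
  rw [t_SEMB K O t _ _ m hR hR2 v hv]
  have hG := good_levN hJ hz m
  obtain ⟨e, he⟩ := hG.enum
  have hU := Pool.Agent.Y972.EL.t_UNI Pool.Agent.Y972.EL.t_PAIR K _ _ e 0 1 hG he hz
  have hP := Pool.Agent.Y972.EL.t_PAIR K _ _ e hG he
  have hl : m.unpair.1 ≤ m := Nat.unpair_left_le m
  have hr : m.unpair.2 ≤ m := Nat.unpair_right_le m
  have hm := lt_tower m
  have h1N : 1 < tower m 2 := two_le_tower m
  constructor
  · rintro ⟨n, c, r, y, h1, h2, h3, h4⟩
    rw [Pool.Agent.Y972.EL.num_iff he] at h1 h3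
    obtain ⟨-, rfl⟩ := h1
    obtain ⟨-, rfl⟩ := h3
    obtain ⟨i, j, hij, rfl, rfl, h5⟩ := (hP c r _).1 h2
    have h6 := Pool.Agent.Y972.EL.enum_inj he hm hij h5
    have h7 : m.unpair = (i, j) := by rw [h6, Nat.unpair_pair]
    have h8 : i = m.unpair.1 := by rw [h7]
    subst h8
    exact (hU _ _ _ (by omega) hm h1N).1 h4
  · intro h
    refine ⟨e m, e m.unpair.1, e m.unpair.2, e 1, ?_, ?_, ?_, ?_⟩
    · rw [Pool.Agent.Y972.EL.num_iff he]
      exact ⟨hm, rfl⟩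
    · refine (hP _ _ _).2 ⟨m.unpair.1, m.unpair.2, ?_, rfl, rfl, ?_⟩
      · rw [Nat.pair_unpair]
        exact hm
      · rw [Nat.pair_unpair]
    · rw [Pool.Agent.Y972.EL.num_iff he]
      exact ⟨h1N, rfl⟩
    · exact (hU _ _ _ (by omega) hm h1N).2 h

theorem sat_sent (hz : (0 : K) ≠ 1) (hJ : Inj2 (JJ p t)) (m : ℕ) (v : ℕ → K) :
    Sat O (sent p m) v ↔ Stat m := by
  show Sat O ((Tp.Fin1 p).inst (hfin p m)) v ↔ _
  rw [Tp.Fin1, sat_ex]
  constructor
  · rintro ⟨a, ha⟩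
    rw [sat_and, t_SEMI K O p a _ _ (update_self _ _ _)] at ha
    exact (sat_body O p a ha.1 hz m _ (update_self _ _ _)).1 ha.2
  · intro h
    refine ⟨t, ?_⟩
    rw [sat_and, t_SEMI K O p t _ _ (update_self _ _ _)]
    exact ⟨hJ, (sat_body O p t hJ hz m _ (update_self _ _ _)).2 h⟩

end

/-! ## Diagonalization -/

theorem tower_big {k x : ℕ} (hx : 1 < x) (h : tower k x ≤ tower x 2) : k ≤ x := by
  by_contra h1
  have h2 : x + 1 ≤ k := by omega
  have h3 : tower (x + 1) x ≤ tower k x := Pool.Agent.Y638.EL.tower_mono_left h2 x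
  have h4 : tower x 2 ≤ tower x x := Pool.Agent.Y151.EL.tower_mono hx x
  have h5 : tower x x < tower (x + 1) x := Nat.lt_two_pow_self
  omega

/-- every elementary function errs on infinitely many of the statements -/
theorem diag (f : ℕ → ℕ) (hf : E3 f) (m0 : ℕ) : ∃ m, m0 ≤ m ∧ ¬ (Stat m ↔ f m = 0) := by
  obtain ⟨g, hg⟩ : ∃ g : ℕ → ℕ, g = fun n => if (if f n = 0 then 1 else 0) = 0 then 1 else 0 :=
    ⟨_, rfl⟩
  have hgE : E3 g := by
    rw [hg]
    exact t_SG _ (t_SG f hf)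
  obtain ⟨c, k, hck⟩ := Pool.Agent.Y638.EL.t_REC g hgE
  obtain ⟨j, h1, h2, h3⟩ := Pool.Agent.Y151.EL.t_TOW c (k + m0)
  obtain ⟨m, hm⟩ : ∃ m, m = Nat.pair c j := ⟨_, rfl⟩
  rw [← hm] at h1 h2 h3
  have h4 := tower_big h1 h2
  refine ⟨m, by omega, ?_⟩
  obtain ⟨W, hW, hW1, hW2⟩ := hck m
  have hlt : ∀ t ∈ W, t < tower m 2 := fun t ht =>
    lt_of_lt_of_le (hW2 t ht) ((Pool.Agent.Y638.EL.tower_mono_left (Nat.le_add_right k m0) m).trans
      h2)
  have hc : m.unpair.1 = c := by rw [hm, Nat.unpair_pair]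
  intro h
  by_cases h0 : f m = 0
  · -- the output is 0, so the statement is false
    have hgm : g m = 0 := by rw [hg]; simp [h0]
    obtain ⟨W', hW', h5, -⟩ := h.2 h0
    rw [hc] at h5
    have h6 := Pool.Agent.Y151.EL.t_UNIQ W W' c m (g m) 1 hW hW' hW1 h5
    rw [hgm] at h6
    exact absurd h6 (by norm_num)
  · have hgm : g m = 1 := by rw [hg]; simp [h0]
    refine h0 (h.1 ⟨W, hW, ?_, hlt⟩)
    rw [hc, ← hgm]
    exact hW1

/-! ## The theory -/

/-- no elementary function tells the true sentences from the false ones, not even among the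
sentences of the language of rings with 64 variables whose codes are large -/
theorem not_elementary (K : Type) [Field K] (p : ℕ) [Fact p.Prime] [CharP K p]
    (hK : ∃ t : K, ∀ u : K, u ^ p ≠ t) (O : Set K) (f : ℕ → ℕ) (hf : E3 f) (n0 : ℕ) :
    ∃ ψ : Fm, ψ.fv = ∅ ∧ ψ.InRing 64 ∧ n0 ≤ ψ.code ∧
      ¬ ((∀ v : ℕ → K, Sat O ψ v) ↔ f ψ.code = 0) := by
  obtain ⟨t, ht⟩ := hK
  have hJ := inj_JJ K p t ht
  obtain ⟨m, hm, h⟩ := diag (fun n => f (codeOf p n)) (E3.comp hf (t_CODE p)) n0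
  refine ⟨sent p m, fv_sent (Nat.Prime.one_le Fact.out) m, ring_sent p m,
    hm.trans (grow_sent p m), fun h1 => h ?_⟩
  rw [← t_CODEEQ p m, ← h1]
  exact ⟨fun h2 v => (sat_sent O p t zero_ne_one hJ m v).2 h2,
    fun h2 => (sat_sent O p t zero_ne_one hJ m 0).1 (h2 0)⟩

/-- lower bound for the running time -/
theorem time_bound (K : Type) [Field K] (p : ℕ) [Fact p.Prime] [CharP K p]
    (hK : ∃ t : K, ∀ u : K, u ^ p ≠ t) (O : Set K) (c : Nat.Partrec.Code) (k : ℕ)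
    (hc : ∀ ψ : Fm, ψ.fv = ∅ → ψ.InRing 64 → ((∀ v : ℕ → K, Sat O ψ v) ↔ 0 ∈ c.eval ψ.code))
    (n0 : ℕ) : ∃ ψ : Fm, ψ.fv = ∅ ∧ ψ.InRing 64 ∧ n0 ≤ ψ.code ∧
      c.evaln (tower k ψ.code) ψ.code = none := by
  have hpow : ∀ k, E3 fun n => tower k n := by
    intro k
    induction k with
    | zero => exact e3_id
    | succ k ih => exact E3.comp (f := fun n => 2 ^ n) E3.pow ih
  have h1 : E3 fun n => evn c (Nat.pair (tower k n) n) :=
    E3.comp (Pool.Agent.Y154.EL.t_EVALN c) (E3.pair (hpow k) e3_id)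
  have h2 : E3 fun n => if evn c (Nat.pair (tower k n) n) - 1 = 0 then 1 else 0 :=
    t_SG _ (Pool.Agent.Y154.EL.e_pred h1)
  obtain ⟨ψ, h3, h4, h5, h6⟩ := not_elementary K p hK O _ (Pool.Agent.Y154.EL.e_pred h1) n0
  refine ⟨ψ, h3, h4, h5, ?_⟩
  rcases h7 : c.evaln (tower k ψ.code) ψ.code with _ | b
  · rfl
  · exfalso
    apply h6
    have h8 : evn c (Nat.pair (tower k ψ.code) ψ.code) = b + 1 := by
      unfold evn
      rw [Nat.unpair_pair, h7]
    rw [hc ψ h3 h4, h8]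
    have h9 : b ∈ c.eval ψ.code := Nat.Partrec.Code.evaln_sound (by rw [h7]; exact rfl)
    constructor
    · intro h10
      have := Part.mem_unique h9 h10
      omega
    · intro h10
      have : b = 0 := by omega
      rwa [this] at h9

end Pool.Agent.K9h49.EL
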