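import Pool.Agent.Y924.EL.Sem

/-! # Project EL: meaning of the templates -/

set_option autoImplicit false
set_option linter.unusedSimpArgs false

namespace Pool.Agent.K9h49.EL

open Pool.Agent.Y924.EL Function

section

variable {K : Type} [CommRing K] {O : Set K} {t : K} {h : Fin 5 → Fm} {M : Lev K} {v : ℕ → K}

theorem sat_cJ (p : ℕ) {a b c : ℕ} (ha : 10 ≤ a) (hb : 10 ≤ b) (hc : 10 ≤ c) :
    Sat O ((Tp.cJ p a b c).inst h) v ↔ JJ p (v 3) (v a) (v b) = v c := by
  rw [Tp.cJ, sat_call3 O h v _ (by omega) (by omega) (by omega) (by omega) (by omega)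
    (by omega), sat_atom, sat_JF]
  simp [update_apply]

theorem sat_cD (hR : Rep O t h M) (hv : v 3 = t) {a : ℕ} (ha : 10 ≤ a) :
    Sat O ((Tp.cD a).inst h) v ↔ M.D (v a) := by
  rw [Tp.cD, sat_call1 O h v _ (by omega), sat_hole, (hR _ (by simpa [update_apply] using hv)).1]
  simp [update_apply]

theorem sat_cL (hR : Rep O t h M) (hv : v 3 = t) {a b : ℕ} (ha : 10 ≤ a) (hb : 10 ≤ b) :
    Sat O ((Tp.cL a b).inst h) v ↔ M.L (v a) (v b) := by
  rw [Tp.cL, sat_call2 O h v _ (by omega) (by omega) (by omega), sat_hole,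
    (hR _ (by simpa [update_apply] using hv)).2.1]
  simp [update_apply]

theorem sat_cE (hR : Rep O t h M) (hv : v 3 = t) {a b c : ℕ} (ha : 10 ≤ a) (hb : 10 ≤ b)
    (hc : 10 ≤ c) : Sat O ((Tp.cE a b c).inst h) v ↔ M.E (v a) (v b) (v c) := by
  rw [Tp.cE, sat_call3 O h v _ (by omega) (by omega) (by omega) (by omega) (by omega)
    (by omega), sat_hole, (hR _ (by simpa [update_apply] using hv)).2.2]
  simp [update_apply]

theorem sat_cE0 (hR : Rep O t h M) (hv : v 3 = t) {a b : ℕ} (ha : 10 ≤ a) (hb : 10 ≤ b)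
    (ha' : a ≠ 29) (hb' : b ≠ 29) : Sat O ((Tp.cE0 a b).inst h) v ↔ M.E (v a) (v b) 0 := by
  rw [Tp.cE0, sat_ex]
  have h1 : ∀ x : K, Sat O (((Tp.isZ 29).and (Tp.cE a b 29)).inst h) (update v 29 x) ↔
      x = 0 ∧ M.E (v a) (v b) x := by
    intro x
    rw [sat_and, sat_isZ, sat_cE hR (by simpa [update_apply] using hv) ha hb (by norm_num),
      update_self, update_of_ne ha', update_of_ne hb']
  simp only [h1, exists_eq_left]

theorem sat_cE1 (hR : Rep O t h M) (hv : v 3 = t) {a b : ℕ} (ha : 10 ≤ a) (hb : 10 ≤ b)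
    (ha' : a ≠ 29) (hb' : b ≠ 29) : Sat O ((Tp.cE1 a b).inst h) v ↔ M.E (v a) (v b) 1 := by
  rw [Tp.cE1, sat_ex]
  have h1 : ∀ x : K, Sat O (((Tp.isO 29).and (Tp.cE a b 29)).inst h) (update v 29 x) ↔
      x = 1 ∧ M.E (v a) (v b) x := by
    intro x
    rw [sat_and, sat_isO, sat_cE hR (by simpa [update_apply] using hv) ha hb (by norm_num),
      update_self, update_of_ne ha', update_of_ne hb']
  simp only [h1, exists_eq_left]

theorem sat_cFst (hR : Rep O t h M) (hv : v 3 = t) {a : ℕ} (ha : 10 ≤ a) (ha' : a ≠ 18) :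
    Sat O ((Tp.cFst a).inst h) v ↔ Fst M (v a) := by
  have h3 : ∀ x : K, update v 18 x 3 = t := fun x => by simpa [update_apply] using hv
  simp only [Tp.cFst, sat_and, sat_neg, sat_ex, sat_cD hR hv ha, Fst]
  refine and_congr_right fun _ => not_congr (exists_congr fun x => ?_)
  rw [sat_cD hR (h3 x) (by norm_num), sat_cL hR (h3 x) (by norm_num) ha, update_self,
    update_of_ne ha']

theorem sat_cLst (hR : Rep O t h M) (hv : v 3 = t) {a : ℕ} (ha : 10 ≤ a) (ha' : a ≠ 18) :
    Sat O ((Tp.cLst a).inst h) v ↔ Lst M (v a) := by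
  have h3 : ∀ x : K, update v 18 x 3 = t := fun x => by simpa [update_apply] using hv
  simp only [Tp.cLst, sat_and, sat_neg, sat_ex, sat_cD hR hv ha, Lst]
  refine and_congr_right fun _ => not_congr (exists_congr fun x => ?_)
  rw [sat_cD hR (h3 x) (by norm_num), sat_cL hR (h3 x) ha (by norm_num), update_self,
    update_of_ne ha']

theorem sat_cSuc (hR : Rep O t h M) (hv : v 3 = t) {a b : ℕ} (ha : 10 ≤ a) (hb : 10 ≤ b)
    (ha' : a ≠ 18) (hb' : b ≠ 18) : Sat O ((Tp.cSuc a b).inst h) v ↔ Suc M (v a) (v b) := by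
  have h3 : ∀ x : K, update v 18 x 3 = t := fun x => by simpa [update_apply] using hv
  simp only [Tp.cSuc, sat_and, sat_neg, sat_ex, sat_cD hR hv ha, sat_cD hR hv hb,
    sat_cL hR hv ha hb, Suc]
  refine and_congr_right fun _ => and_congr_right fun _ => and_congr_right fun _ =>
    not_congr (exists_congr fun x => ?_)
  rw [sat_cD hR (h3 x) (by norm_num), sat_cL hR (h3 x) (by norm_num) hb,
    sat_cL hR (h3 x) ha (by norm_num), update_self, update_of_ne ha', update_of_ne hb']

theorem sat_cCh (p : ℕ) (hR : Rep O t h M) (hv : v 3 = t) {a i x y : ℕ} (ha : 10 ≤ a)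
    (hi : 10 ≤ i) (hx : 10 ≤ x) (hy : 10 ≤ y) (ha' : a ≠ 19) (hi' : i ≠ 19) (hx' : x ≠ 19)
    (hy' : y ≠ 19) (ha2 : a ≠ 29) (hi2 : i ≠ 29) :
    Sat O ((Tp.cCh p a i x y).inst h) v ↔ Ch M (JJ p t) 0 1 (v a) (v i) (v x) (v y) := by
  have h3 : ∀ x : K, update v 19 x 3 = t := fun x => by simpa [update_apply] using hv
  simp only [Tp.cCh, sat_ex, sat_or, sat_and, Ch]
  refine exists_congr fun u => ?_
  rw [sat_cE0 hR (h3 u) ha hi ha2 hi2, sat_cE1 hR (h3 u) ha hi ha2 hi2,
    sat_cJ p hy (by norm_num) hx, sat_cJ p (by norm_num) hy hx, h3, update_self,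
    update_of_ne ha', update_of_ne hi', update_of_ne hx', update_of_ne hy']

/-! ## First level -/

theorem t_SEM0 : S_SEM0 := by
  intro K _ O p t v hv
  refine ⟨?_, ?_, ?_⟩
  · show Sat O (Tp.D0.inst fun _ => .one 0) v ↔ _
    rw [Tp.D0, sat_arg1, sat_or, sat_isZ, sat_isO, update_self]
    exact Iff.rfl
  · show Sat O (Tp.L0.inst fun _ => .one 0) v ↔ _
    rw [Tp.L0, sat_arg2, sat_and, sat_isZ, sat_isO]
    simp only [update_self, update_of_ne (show (10 : ℕ) ≠ 11 by norm_num)]
    exact Iff.rfl
  · show Sat O ((Tp.E0 p).inst fun _ => .one 0) v ↔ _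
    rw [Tp.E0, sat_arg3]
    simp only [sat_or, sat_and, sat_isZ, sat_isO, sat_ex,
      sat_cJ p (show 10 ≤ 12 by norm_num) (show 10 ≤ 13 by norm_num) (show 10 ≤ 10 by norm_num),
      sat_cJ p (show 10 ≤ 13 by norm_num) (show 10 ≤ 12 by norm_num) (show 10 ≤ 10 by norm_num)]
    simp [update_apply, hv, lev0]

/-! ## Next level -/

theorem t_SEM1 : S_SEM1 := by
  intro K _ O p t h M hR v hv
  have g3 : ∀ x : K, update v 10 x 3 = t := fun x => by simpa [update_apply] using hv
  refine ⟨?_, ?_, ?_⟩
  · show Sat O (Tp.D1.inst h) v ↔ _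
    rw [Tp.D1, sat_arg1, sat_all]
    refine forall_congr' fun x => ?_
    have g : update (update v 10 (v 0)) 11 x 3 = t := by simpa [update_apply] using hv
    rw [sat_imp, sat_or, sat_cD hR g (by norm_num), sat_cE0 hR g (by norm_num) (by norm_num)
      (by norm_num) (by norm_num), sat_cE1 hR g (by norm_num) (by norm_num)
      (by norm_num) (by norm_num)]
    simp [update_apply]
  · show Sat O (Tp.L1.inst h) v ↔ _
    rw [Tp.L1, sat_arg2, sat_ex]
    refine exists_congr fun x => ?_
    have g : update (update (update v 10 (v 0)) 11 (v 1)) 12 x 3 = t := by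
      simpa [update_apply] using hv
    rw [sat_and, sat_and, sat_and, sat_all, sat_cD hR g (by norm_num),
      sat_cE0 hR g (by norm_num) (by norm_num) (by norm_num) (by norm_num),
      sat_cE1 hR g (by norm_num) (by norm_num) (by norm_num) (by norm_num)]
    have h1 : ∀ y : K, Sat O ((Tp.imp (Tp.cD 13) (Tp.imp (Tp.cL 13 12)
        (Tp.or (.and (Tp.cE0 10 13) (Tp.cE0 11 13)) (.and (Tp.cE1 10 13) (Tp.cE1 11 13))))).inst h)
        (update (update (update (update v 10 (v 0)) 11 (v 1)) 12 x) 13 y) ↔
        (M.D y → M.L y x → (M.E (v 0) y 0 ∧ M.E (v 1) y 0) ∨ (M.E (v 0) y 1 ∧ M.E (v 1) y 1)) := by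
      intro y
      have g' : update (update (update (update v 10 (v 0)) 11 (v 1)) 12 x) 13 y 3 = t := by
        simpa [update_apply] using hv
      rw [sat_imp, sat_imp, sat_or, sat_and, sat_and, sat_cD hR g' (by norm_num),
        sat_cL hR g' (by norm_num) (by norm_num),
        sat_cE0 hR g' (by norm_num) (by norm_num) (by norm_num) (by norm_num),
        sat_cE0 hR g' (by norm_num) (by norm_num) (by norm_num) (by norm_num),
        sat_cE1 hR g' (by norm_num) (by norm_num) (by norm_num) (by norm_num),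
        sat_cE1 hR g' (by norm_num) (by norm_num) (by norm_num) (by norm_num)]
      simp [update_apply]
    simp only [h1]
    simp [update_apply]
  · show Sat O ((Tp.E1 p).inst h) v ↔ _
    rw [Tp.E1, sat_arg3, sat_ex]
    refine exists_congr fun w => ?_
    obtain ⟨v1, hv1⟩ : ∃ v1, v1 =
      update (update (update (update v 10 (v 0)) 11 (v 1)) 12 (v 2)) 13 w := ⟨_, rfl⟩
    have g : v1 3 = t := by rw [hv1]; simpa [update_apply] using hv
    have e10 : v1 10 = v 0 := by rw [hv1]; simp [update_apply]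
    have e11 : v1 11 = v 1 := by rw [hv1]; simp [update_apply]
    have e12 : v1 12 = v 2 := by rw [hv1]; simp [update_apply]
    have e13 : v1 13 = w := by rw [hv1]; simp [update_apply]
    rw [← hv1, sat_and, sat_and, sat_all, sat_all, sat_all]
    refine and_congr ?_ (and_congr ?_ ?_)
    · refine forall_congr' fun x => ?_
      have g' : update v1 14 x 3 = t := by simpa [update_apply] using g
      rw [sat_imp, sat_cFst hR g' (by norm_num) (by norm_num),
        sat_cE hR g' (by norm_num) (by norm_num) (by norm_num)]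
      simp [update_apply, e10, e13]
    · refine forall_congr' fun x => ?_
      rw [sat_all]
      refine forall_congr' fun y => ?_
      have g' : update (update v1 14 x) 15 y 3 = t := by simpa [update_apply] using g
      rw [sat_imp, sat_cSuc hR g' (by norm_num) (by norm_num) (by norm_num) (by norm_num),
        sat_ex]
      refine imp_congr (by simp [update_apply]) (exists_congr fun a => ?_)
      rw [sat_ex]
      refine exists_congr fun b => ?_
      have g2 : update (update (update (update v1 14 x) 15 y) 16 a) 17 b 3 = t := by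
        simpa [update_apply] using g
      rw [sat_and, sat_and, sat_cE hR g2 (by norm_num) (by norm_num) (by norm_num),
        sat_cE hR g2 (by norm_num) (by norm_num) (by norm_num),
        sat_cCh p hR g2 (by norm_num) (by norm_num) (by norm_num) (by norm_num) (by norm_num)
          (by norm_num) (by norm_num) (by norm_num) (by norm_num) (by norm_num)]
      simp [update_apply, e13, e11]
    · refine forall_congr' fun x => ?_
      have g' : update v1 14 x 3 = t := by simpa [update_apply] using g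
      rw [sat_imp, sat_cLst hR g' (by norm_num) (by norm_num), sat_ex]
      refine imp_congr (by simp [update_apply]) (exists_congr fun a => ?_)
      have g2 : update (update v1 14 x) 16 a 3 = t := by simpa [update_apply] using g
      rw [sat_and, sat_cE hR g2 (by norm_num) (by norm_num) (by norm_num),
        sat_cCh p hR g2 (by norm_num) (by norm_num) (by norm_num) (by norm_num) (by norm_num)
          (by norm_num) (by norm_num) (by norm_num) (by norm_num) (by norm_num)]
      simp [update_apply, e13, e11, e12]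

end

end Pool.Agent.K9h49.EL
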